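import Mathlib
import Pool.Agent.Helper84.HRT.DefsA

open MeasureTheory Complex Filter
open scoped ENNReal ComplexConjugate InnerProductSpace BigOperators Topology

namespace Pool.Agent.Helper84.HRT

variable {H : Type} [NormedAddCommGroup H] [InnerProductSpace ℂ H] [CompleteSpace H]

theorem fock_of_weyl (W : Weyl H) (N : ℕ) (hN : 0 < N) (c : ℕ → ℂ) (hc : ∃ k < N, c k ≠ 0)
    (u : H) (hu : u ≠ 0) (h : ∑ k ∈ Finset.range N, c k • W.U (node ((k : ℝ) / N)) u = 0) :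
    ∃ f : ℂ → ℂ, Differentiable ℂ f ∧ f ≠ 0 ∧
      Integrable (fun z : ℂ => ‖f z‖ ^ 2 * Real.exp (-‖z‖ ^ 2)) ∧
      ∀ z, ∑ k ∈ Finset.range N,
        c k * fockU (cexp (2 * Real.pi * I * k / N)) f z = 0 := by sorry

end Pool.Agent.Helper84.HRT
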