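import Mathlib
import Pool.Agent.Helper84.HRT.DefsA

open MeasureTheory Complex Filter
open scoped ENNReal ComplexConjugate InnerProductSpace BigOperators Topology

namespace Pool.Agent.Helper84.HRT

variable {H : Type} [NormedAddCommGroup H] [InnerProductSpace ℂ H] [CompleteSpace H]

/-- the coefficients of a singular pattern operator are not all zero -/
theorem coeff_of_Aop (W : Weyl H) (D : Data) (g C0 : ℝ) (hg : 0 < g)
    (hE0 : ∀ γ ∈ D.Γ, ∀ f : H, g * ‖f‖ ≤ ‖Bop W D γ f‖) :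
    ∃ n0 : ℕ, ∀ n, n0 ≤ n → ∀ γ ∈ D.Γ, ∀ ξ r, 0 ≤ r → r ≤ C0 → D.AdmN (D.NN n) r ξ →
      ∃ c : ℕ → ℂ, (∃ k < D.NN n, c k ≠ 0) ∧ ∀ u : H, Aop W D (muN (D.NN n)) γ ξ u =
        ∑ k ∈ Finset.range (D.NN n), c k • W.U (node ((k : ℝ) / (D.NN n : ℕ))) u := by sorry

end Pool.Agent.Helper84.HRT
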