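import Mathlib
import Pool.Agent.Helper84.HRT.DefsA

open MeasureTheory Complex Filter
open scoped ENNReal ComplexConjugate InnerProductSpace BigOperators Topology

namespace Pool.Agent.Helper84.HRT

variable {H : Type} [NormedAddCommGroup H] [InnerProductSpace ℂ H] [CompleteSpace H]

/-- L10 -/
theorem L10 (W : Weyl H) (D : Data) (g : ℝ) (hg : 0 < g)
    (hE0 : ∀ γ ∈ D.Γ, ∀ f : H, g * ‖f‖ ≤ ‖Bop W D γ f‖) :
    ∃ R : ℝ, 4 ≤ R ∧ ∀ γ ∈ D.Γ, ∀ G, Rep G → S2 (om R) G < ⊤ →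
      ENNReal.ofReal ((g / 2) ^ 2) * S2 (om R) G ≤ S2 (om R) (actB D γ G) := by sorry

end Pool.Agent.Helper84.HRT
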