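import Mathlib
import Pool.Agent.Helper84.HRT.DefsA

open MeasureTheory Complex Filter
open scoped ENNReal ComplexConjugate InnerProductSpace BigOperators Topology

namespace Pool.Agent.Helper84.HRT

variable {H : Type} [NormedAddCommGroup H] [InnerProductSpace ℂ H] [CompleteSpace H]

/-- pointwise convergence of the action, finite levels → ∞ -/
theorem actN_tendsto (D : Data) (N : ℕ → ℕ) (hN0 : ∀ j, 0 < N j) (hN : Tendsto N atTop atTop)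
    (G : ℕ → ℂ → ℂ) (G0 : ℂ → ℂ) (hG : ∀ j, Continuous (G j)) (hG0 : Continuous G0)
    (hlim : TendstoLocallyUniformly G G0 atTop) (γ : ℕ → Fin D.m → ℂ) (γ0 : Fin D.m → ℂ)
    (hγ : Tendsto γ atTop (𝓝 γ0)) (ρ : ℕ → ℝ) (M : ℝ) (hρ0 : ∀ j, 0 ≤ ρ j) (hρM : ∀ j, ρ j ≤ M)
    (ξ : ℕ → ℝ → ℂ) (ξ0 : ℝ → ℂ) (r : ℝ) (hξ : ∀ j, D.AdmN (N j) (ρ j) (ξ j)) (hξ0 : D.Adm r ξ0)
    (hw : ∀ h : ℝ → ℂ, Integrable h mu8 →
      Tendsto (fun j => ∫ t, h t * ξ j t ∂mu8) atTop (𝓝 (∫ t, h t * ξ0 t ∂mu8))) (z : ℂ) :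
    Tendsto (fun j => actA D (muN (N j)) (γ j) (ξ j) (G j) z) atTop
      (𝓝 (actA D mu8 γ0 ξ0 G0 z)) := by sorry

end Pool.Agent.Helper84.HRT
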