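import Mathlib
import Pool.Agent.Helper84.HRT.DefsA

open MeasureTheory Complex Filter
open scoped ENNReal ComplexConjugate InnerProductSpace BigOperators Topology

namespace Pool.Agent.Helper84.HRT

variable {H : Type} [NormedAddCommGroup H] [InnerProductSpace ℂ H] [CompleteSpace H]
variable {W : Weyl H} {D : Data}

/-- far away there are no centres of a fixed operator at N = ∞ -/
theorem no_far_centre (F : Fam W D) (γ : Fin D.m → ℂ) (hγ : γ ∈ D.Γ) (r : ℝ) (hr : 0 ≤ r)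
    (ξ : ℝ → ℂ) (hξ : D.Adm r ξ) (δ : ℝ) (hδ0 : 0 ≤ δ) (hδ : δ < F.g / 2) :
    ∃ T0 : ℝ, ∀ w : ℂ, T0 ≤ ‖w‖ → ∀ g : H, ¬ IsCen W F.R δ (tr W w (Aop W D mu8 γ ξ)) g := by
  sorry

end Pool.Agent.Helper84.HRT
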