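import Mathlib
import Pool.Agent.Helper84.HRT.DefsA

open MeasureTheory Complex Filter
open scoped ENNReal ComplexConjugate InnerProductSpace BigOperators Topology

namespace Pool.Agent.Helper84.HRT

variable {H : Type} [NormedAddCommGroup H] [InnerProductSpace ℂ H] [CompleteSpace H]
variable {W : Weyl H} {D : Data}

/-- the truncated exponential weight -/
theorem expw_isW : ∃ C : ℝ, 0 < C ∧ ∀ σ T : ℝ, 0 < σ → C * σ ≤ 1 → 0 < T →
    IsW (fun z => Real.exp (σ * min ‖z‖ (2 * T - ‖z‖))) (fun _ => C * σ) := by sorry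

/-- exponential decay of generalised null functions -/
theorem decay (F : Fam W D) (γ : Fin D.m → ℂ) (hγ : γ ∈ D.Γ) (r : ℝ) (hr : 0 ≤ r)
    (hrC : r ≤ F.C0) (ξ : ℝ → ℂ) (hξ : D.Adm r ξ) (G : ℂ → ℂ) (hG : Rep G)
    (hfin : S2 (om F.R) G < ⊤) (hnull : ∀ z, actA D mu8 γ ξ G z = 0) :
    ∃ σ : ℝ, 0 < σ ∧ S2 (fun z => Real.exp (σ * ‖z‖)) G < ⊤ := by sorry

end Pool.Agent.Helper84.HRT
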