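import Mathlib
import Pool.Agent.Helper84.HRT.DefsA

open MeasureTheory Complex Filter
open scoped ENNReal ComplexConjugate InnerProductSpace BigOperators Topology

namespace Pool.Agent.Helper84.HRT

variable {H : Type} [NormedAddCommGroup H] [InnerProductSpace ℂ H] [CompleteSpace H]

theorem mf_cont (W : Weyl H) (ψ : H) : Continuous (mf W ψ) := by sorry

theorem mf_half (W : Weyl H) (ψ : H) (t : ℝ) : mf W ψ (t + 1 / 2) = conj (mf W ψ t) := by sorry

theorem mf_norm_le (W : Weyl H) (ψ : H) (t : ℝ) : ‖mf W ψ t‖ ≤ ‖ψ‖ ^ 2 := by sorry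

theorem mf_U (W : Weyl H) (ψ : H) (w : ℂ) (t : ℝ) :
    mf W (W.U w ψ) t = chi w (node t) * mf W ψ t := by sorry

end Pool.Agent.Helper84.HRT
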