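import Mathlib
import Pool.Agent.Helper84.HRT.DefsA

open MeasureTheory Complex Filter
open scoped ENNReal ComplexConjugate InnerProductSpace BigOperators Topology

namespace Pool.Agent.Helper84.HRT

variable {H : Type} [NormedAddCommGroup H] [InnerProductSpace ℂ H] [CompleteSpace H]

/-- analyticity of the ambiguity function on the circle -/
theorem mf_analytic (W : Weyl H) (ψ : H) (σ : ℝ) (hσ : 0 < σ)
    (h : S2 (fun z => Real.exp (σ * ‖z‖)) (W.V ψ) < ⊤) : AnalyticOn ℝ (mf W ψ) Set.univ := by sorry

end Pool.Agent.Helper84.HRT
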