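import Mathlib
import Pool.Agent.Helper84.HRT.DefsA

open MeasureTheory Complex Filter
open scoped ENNReal ComplexConjugate InnerProductSpace BigOperators Topology

namespace Pool.Agent.Helper84.HRT

variable {H : Type} [NormedAddCommGroup H] [InnerProductSpace ℂ H] [CompleteSpace H]
variable {W : Weyl H} {D : Data}

/-- optimality of null vectors at the touching radius -/
theorem opt_of_null (F : Fam W D) (γ : Fin D.m → ℂ) (hγ : γ ∈ D.Γ) (ξ : ℝ → ℂ)
    (hξ : D.Adm F.r ξ) (ψ : H) (hψ : ψ ≠ 0) (hnull : Aop W D mu8 γ ξ ψ = 0) :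
    F.Opt γ ξ ψ := by sorry

end Pool.Agent.Helper84.HRT
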