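import Mathlib
import Pool.Agent.Helper84.HRT.DefsA

open MeasureTheory Complex Filter
open scoped ENNReal ComplexConjugate InnerProductSpace BigOperators Topology

namespace Pool.Agent.Helper84.HRT

variable {H : Type} [NormedAddCommGroup H] [InnerProductSpace ℂ H] [CompleteSpace H]

/-- L12: Riemann-Lebesgue on the circle -/
theorem L12 (h : ℝ → ℂ) (hh : Integrable h mu8) :
    Tendsto (fun w : ℂ => ∫ t, h t * chi w (node t) ∂mu8) (cocompact ℂ) (𝓝 0) := by sorry

end Pool.Agent.Helper84.HRT
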