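import Mathlib
import Pool.Agent.Helper84.HRT.DefsS

open MeasureTheory Complex Filter
open scoped ENNReal NNReal ComplexConjugate InnerProductSpace BigOperators Topology

namespace Pool.Agent.Helper84.HRT

variable {H : Type} [NormedAddCommGroup H] [InnerProductSpace ℂ H] [CompleteSpace H]

/-- L15 (coarse separation). By contradiction, `LIM` twice, rigidity (helper79: C4, C5). -/
theorem L15 {W : Weyl H} {D : Data} (F : Fam W D) (K : ℕ) : ∃ (δ0 R0 : ℝ) (n0 : ℕ), 0 < δ0 ∧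
    1 ≤ R0 ∧ F.n1 ≤ n0 ∧ ∀ n, n0 ≤ n → ∀ (w w' : ℂ) (g g' : H), F.Ctr n δ0 w g →
    F.Ctr n δ0 w' g' → ‖w - w'‖ ≤ R0 ∨ (D.NN n : ℝ) ^ K ≤ ‖w - w'‖ := by sorry

end Pool.Agent.Helper84.HRT
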