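import Mathlib
import Pool.Agent.Helper84.HRT.DefsS

open MeasureTheory Complex Filter
open scoped ENNReal NNReal ComplexConjugate InnerProductSpace BigOperators Topology

namespace Pool.Agent.Helper84.HRT

variable {H : Type} [NormedAddCommGroup H] [InnerProductSpace ℂ H] [CompleteSpace H]

/-- CONC: a vector which is near-null at all scales `s` has its mass near `0` or very far out.
Proof: L9 with `T = tr W w (F.A n)`, `s = slo B R2` (`slo_doubling`); `D_ := C9 √M0 R_c 2B`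
(enlarge `C9` so that `D_ ≥ 2`), so `C9 √M0 R_c s(w') = D_/(R2+|w'|)`. `δ00`: `δ00 ≤ 1`,
`D_ ≤ δ00^{-49}`; `R20 ≥ D_/δ0`, `R20 ≥ 2B`; `e10 ≤ D_/(2 R2)`, and `T = 1/e1` is so large that the
last term of `mass_far` is `≤ .01 mass univ`; `ρ = R1` from `mass_near`. Let `w' ∈ E`,
`e := D_/(R2+|w'|) ≤ δ0`; `w+w'` is an `e`-centre with vector `U w' v` (`ctr_iff`).
If `e1 ≤ e`: `w` is an `e`-centre too (`ctr_mono`), SEP(e) gives `|w'| ≤ R0` or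
`|w'| ≥ e^{-50} = ((R2+|w'|)/D_)^50 ≥ (R2+|w'|) δ0^{-49}/D_ > |w'|`, impossible.
If `e < e1`: `|w'| > D_/e1 - R2 ≥ D_/(2 e1) ≥ 1/e1`. So `E ⊆ {|w'| ≤ R0} ∪ {|w'| ≥ 1/e1}`; if the
second alternative fails, mass far `≤ (1/20 + 1/100) mass univ`, mass near `≥ 9/10 mass univ`. -/
theorem conc {W : Weyl H} {D : Data} (F : Fam W D) (R0 M0 B : ℝ) (hR0 : 1 ≤ R0) (hM0 : 1 ≤ M0)
    (hB : 1 ≤ B) : ∃ ρ : ℝ, 0 < ρ ∧ ∃ δ00 : ℝ, 0 < δ00 ∧ ∀ δ0 : ℝ, 0 < δ0 → δ0 ≤ δ00 →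
    ∃ R20 : ℝ, 1 ≤ R20 ∧ ∀ R2 : ℝ, R20 ≤ R2 → ∃ e10 : ℝ, 0 < e10 ∧ ∀ n, F.n1 ≤ n →
    ∀ e1 : ℝ, 0 < e1 → e1 ≤ e10 → F.SepR R0 δ0 n e1 → ∀ (w : ℂ) (g : H), F.Ctr n e1 w g →
    ∀ v : H, S2 (fun z => (slo B R2 z)⁻¹) (W.V (tr W w (F.A n) v)) ≤
      ENNReal.ofReal M0 * ‖v‖ₑ ^ 2 →
    ENNReal.ofReal (8 / 10) * ‖v‖ₑ ^ 2 ≤ S2 (ball1 ρ) (W.V v) ∨
    ENNReal.ofReal (1 / 20) * ‖v‖ₑ ^ 2 ≤ S2 (out1 (1 / (2 * e1))) (W.V v) := by sorry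

end Pool.Agent.Helper84.HRT
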