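import Mathlib
import Pool.Agent.Helper84.HRT.DefsS

open MeasureTheory Complex Filter
open scoped ENNReal NNReal ComplexConjugate InnerProductSpace BigOperators Topology

namespace Pool.Agent.Helper84.HRT

variable {H : Type} [NormedAddCommGroup H] [InnerProductSpace ℂ H] [CompleteSpace H]

/-- L16, Case I. `v := TO W (OmR R2 R) g`. TO_op with `Y = (slo 390 R2)⁻¹`, `s = slo 390 R2`:
`S2 Y (V (A v)) ≤ C (S2 (Y Om) (V (A g)) + S2 Om (V g)) ≤ 2C S2 Om (V g) ≤ 8C ‖v‖²` (TO_norm, `R2`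
large), so `conc` with `M0 = 8C`, `B = 390`. First alternative: on `|z| ≤ ρ`,
`|V v(z)|² ≤ C e^{2ρ} S2 (exp(-|z|) Om) (V g) ≤ C'` (`V_TO`, `Kop_pointwise` with `Y = exp(-|z|)`,
`OmR_exp`), so `.8 ‖v‖² ≤ C''`. Second: `Kop_out` with `T = 1/e1`, and on `|z| ≥ 1/(4 e1)`,
`R^4 ≤ 4|z|`, `OmR_tail`: `‖v‖²/20 ≤ C (C' + e^{-1/(2 e1)} S2 Om (V g))`, and
`S2 Om (V g) ≤ 4 ‖v‖²`; `e10` small. -/
theorem dec_caseI {W : Weyl H} {D : Data} (F : Fam W D) (R0 : ℝ) (hR0 : 1 ≤ R0) :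
    ∃ δ00 : ℝ, 0 < δ00 ∧ ∀ δ0 : ℝ, 0 < δ0 → δ0 ≤ δ00 → ∃ R2 C e10 : ℝ, 1560 ≤ R2 ∧ 1 ≤ C ∧
    0 < e10 ∧ ∀ n, F.n1 ≤ n → ∀ e1 : ℝ, 0 < e1 → e1 ≤ e10 → F.SepR R0 δ0 n e1 →
    ∀ (w : ℂ) (g : H), F.Ctr n e1 w g → S2 (om F.R) (W.V g) = 1 → ∀ R : ℝ, 1 ≤ R →
    R ^ 4 * e1 ≤ 1 →
    S2 (fun z => (slo 390 R2 z)⁻¹ * OmR R2 R z) (W.V (tr W w (F.A n) g)) ≤
      S2 (OmR R2 R) (W.V g) → S2 (OmR R2 R) (W.V g) ≤ ENNReal.ofReal C := by sorry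

end Pool.Agent.Helper84.HRT
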