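import Mathlib
import Pool.Agent.Helper84.HRT.DefsS

open MeasureTheory Complex Filter
open scoped ENNReal NNReal ComplexConjugate InnerProductSpace BigOperators Topology

namespace Pool.Agent.Helper84.HRT

variable {H : Type} [NormedAddCommGroup H] [InnerProductSpace ℂ H] [CompleteSpace H]

/-- L16 (DEC), from `dec_caseI`; Case II: `S2 Om (V g) ≤ S2 (s⁻¹ Om) (V (A g)) ≤
(C R^395)² S2 om (V (A g)) ≤ (C R^395 δ)²` by `OmR_sup`; then `pw_le_OmR`. -/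
theorem L16 {W : Weyl H} {D : Data} (F : Fam W D) (R0 : ℝ) (hR0 : 1 ≤ R0) :
    ∃ δ00 : ℝ, 0 < δ00 ∧ ∀ δ0 : ℝ, 0 < δ0 → δ0 ≤ δ00 → F.Dec R0 δ0 := by sorry

end Pool.Agent.Helper84.HRT
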