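import Mathlib
import Pool.Agent.Helper84.HRT.DefsS

open MeasureTheory Complex Filter
open scoped ENNReal NNReal ComplexConjugate InnerProductSpace BigOperators Topology

namespace Pool.Agent.Helper84.HRT

variable {H : Type} [NormedAddCommGroup H] [InnerProductSpace ℂ H] [CompleteSpace H]

/-- L17a: weighted masses of a function `G` with a moment bound up to `2d` and total
`om`-mass 1 (pure analysis; `G` measurable). `d = 1/x`.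
(i) `∫ e^{-2| |z|-d |} |G|² ≤ x^{770}`: `|z| ≤ d/2`: `e^{-d} C`; `d/2 ≤ |z| ≤ 2d`: `C (d/2)^{-780}`;
`|z| ≥ 2d`: `e^{-2(|z|-d)} ≤ e^{-|z|}` and `om` is at least `c (1+|z|)^{-4}`.
(ii) `∫ (1+|z|)^{600} Omc² |G|² ≤ C'`. (iii) `∫_{|z|≥d} e^{-2(|z|-d/2)} |G|² ≤ x^{800}`. -/
theorem loc_masses (Rc C : ℝ) (hRc : 4 ≤ Rc) (hC : 1 ≤ C) : ∃ C' x0 : ℝ, 1 ≤ C' ∧ 0 < x0 ∧
    ∀ (G : ℂ → ℂ), Measurable G → ∀ x : ℝ, 0 < x → x ≤ x0 → S2 (om Rc) G = 1 →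
    S2 (fun z => ball1 (2 / x) z * pw 390 z) G ≤ ENNReal.ofReal C →
    S2 (fun z => min 1 (Real.exp (‖z‖ - 1 / x)) * Omc (1 / x) z) G ≤ ENNReal.ofReal (x ^ 770) ∧
    S2 (fun z => pw 300 z * Omc (1 / x) z) G ≤ ENNReal.ofReal C' ∧
    S2 (fun z => min 1 (Real.exp (1 / (2 * x) - ‖z‖)) * (1 - Omc (1 / x) z)) G ≤
      ENNReal.ofReal (x ^ 800) := by sorry

/-- L17b: `Omc (1/x) ≤ C x^{-4} om`. -/
theorem Omc_le_om (Rc : ℝ) (hRc : 4 ≤ Rc) : ∃ C : ℝ, 1 ≤ C ∧ ∀ x : ℝ, 0 < x → x ≤ 1 →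
    ∀ z : ℂ, Omc (1 / x) z * x ^ 4 ≤ C * om Rc z := by sorry

end Pool.Agent.Helper84.HRT
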