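import Mathlib
import Pool.Agent.Helper84.HRT.DefsS

open MeasureTheory Complex Filter
open scoped ENNReal NNReal ComplexConjugate InnerProductSpace BigOperators Topology

namespace Pool.Agent.Helper84.HRT

variable {H : Type} [NormedAddCommGroup H] [InnerProductSpace ℂ H] [CompleteSpace H]

/-- tightness: at least `7/10` of the `om`-mass of a tight vector lies in `|z| ≤ 40 R`
(`∫_{|z|>40R} om² ≤ 41^{-2} ∫ omm² ≤ 441/1681 ≤ 3/10`). -/
theorem tight_ball (R : ℝ) (hR : 4 ≤ R) (G : ℂ → ℂ) (hG : Measurable G)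
    (h1 : S2 (om R) G = 1) (h2 : S2 (omm R) G ≤ ENNReal.ofReal 441) :
    ENNReal.ofReal (7 / 10) ≤ S2 (ball1 (40 * R)) G := by sorry

/-- the mass in a ball is controlled by the `om`-mass -/
theorem ball_le_om (R ρ : ℝ) (hR : 0 < R) (hρ : 0 ≤ ρ) (G : ℂ → ℂ) :
    S2 (ball1 ρ) G ≤ ENNReal.ofReal ((1 + ρ / R) ^ 8) * S2 (om R) G := by sorry

end Pool.Agent.Helper84.HRT
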