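import Mathlib
import Pool.Agent.Helper84.HRT.DefsS

open MeasureTheory Complex Filter
open scoped ENNReal NNReal ComplexConjugate InnerProductSpace BigOperators Topology

namespace Pool.Agent.Helper84.HRT

variable {H : Type} [NormedAddCommGroup H] [InnerProductSpace ℂ H] [CompleteSpace H]

/-- L17 (localisation). `δ = x^400`, `u = TO W (Omc (1/x)) g`; L16 with `e1 = x^8`, `R = 2/x`
(`R^4 e1 = 16 x^4 ≤ 1`, `R^395 δ = 2^395 x^5 ≤ 1` for small `x`).
`‖A u‖² ≤ C (S2 Omc (V (A g)) + S2 (s Omc) (V g)) ≤ C (C² x^{-8} x^{800} + x^{770})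
≤ x^{760}` (TO_op with `Y = 1`, `isW_Omc`, `Omc_le_om`). Moments: `V_TO`, `Kop_pw 300`, (ii).
`V u - V g = Kop ((Omc - 1) V g)` (as `V g = Kop (V g)`, `rep_V`), `Kop_in` with `T = 1/(2x)`
and (iii). Lower bound: `tight_ball`, `S2_add`. -/
theorem L17 {W : Weyl H} {D : Data} (F : Fam W D) (R0 δ0 : ℝ) (h : F.Dec R0 δ0) :
    F.Loc R0 δ0 := by sorry

end Pool.Agent.Helper84.HRT
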