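import Mathlib
import Pool.Agent.Helper84.HRT.DefsS

open MeasureTheory Complex Filter
open scoped ENNReal NNReal ComplexConjugate InnerProductSpace BigOperators Topology

namespace Pool.Agent.Helper84.HRT

variable {H : Type} [NormedAddCommGroup H] [InnerProductSpace ℂ H] [CompleteSpace H]

/-! The local pairing. -/

theorem brk_add (W : Weyl H) (ρ : ℝ) (f h h' : H) :
    brk W ρ f (h + h') = brk W ρ f h + brk W ρ f h' := by sorry

theorem brk_sub (W : Weyl H) (ρ : ℝ) (f h h' : H) :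
    brk W ρ f (h - h') = brk W ρ f h - brk W ρ f h' := by sorry

theorem brk_sub_left (W : Weyl H) (ρ : ℝ) (f f' h : H) :
    brk W ρ (f - f') h = brk W ρ f h - brk W ρ f' h := by sorry

theorem brk_smul (W : Weyl H) (ρ : ℝ) (f h : H) (c : ℂ) :
    brk W ρ f (c • h) = c * brk W ρ f h := by sorry

/-- Cauchy-Schwarz -/
theorem brk_le (W : Weyl H) (ρ : ℝ) (f h : H) :
    ‖brk W ρ f h‖ₑ ^ 2 ≤ S2 (ball1 ρ) (W.V f) * S2 (ball1 ρ) (W.V h) := by sorry

theorem brk_self (W : Weyl H) (ρ : ℝ) (f : H) :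
    brk W ρ f f = (((S2 (ball1 ρ) (W.V f)).toReal : ℝ) : ℂ) := by sorry

end Pool.Agent.Helper84.HRT
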