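import Mathlib
import Pool.Agent.Helper84.HRT.DefsS

open MeasureTheory Complex Filter
open scoped ENNReal NNReal ComplexConjugate InnerProductSpace BigOperators Topology

namespace Pool.Agent.Helper84.HRT

variable {H : Type} [NormedAddCommGroup H] [InnerProductSpace ℂ H] [CompleteSpace H]

/-! Limits of local pairings and local masses. -/

theorem brk_tendsto (W : Weyl H) (ρ : ℝ) (f h : ℕ → H) (f0 h0 : H)
    (hf : TendstoLocallyUniformly (fun j => W.V (f j)) (W.V f0) atTop)
    (hh : TendstoLocallyUniformly (fun j => W.V (h j)) (W.V h0) atTop) :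
    Tendsto (fun j => brk W ρ (f j) (h j)) atTop (nhds (brk W ρ f0 h0)) := by sorry

theorem ball_tendsto (W : Weyl H) (ρ : ℝ) (f : ℕ → H) (f0 : H)
    (hf : TendstoLocallyUniformly (fun j => W.V (f j)) (W.V f0) atTop) :
    Tendsto (fun j => S2 (ball1 ρ) (W.V (f j))) atTop (nhds (S2 (ball1 ρ) (W.V f0))) := by sorry

/-- norm convergence in `H` implies locally uniform convergence of the transforms -/
theorem unif_of_tendsto (W : Weyl H) (f : ℕ → H) (f0 : H) (hf : Tendsto f atTop (nhds f0)) :
    TendstoLocallyUniformly (fun j => W.V (f j)) (W.V f0) atTop := by sorry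

end Pool.Agent.Helper84.HRT
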