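import Mathlib
import Pool.Agent.Helper84.HRT.DefsS

open MeasureTheory Complex Filter
open scoped ENNReal NNReal ComplexConjugate InnerProductSpace BigOperators Topology

namespace Pool.Agent.Helper84.HRT

variable {H : Type} [NormedAddCommGroup H] [InnerProductSpace ℂ H] [CompleteSpace H]

/-- L18 (LG). By contradiction: for `c` (fixed below) and `ε2 = 1/(j+1)` there are `n_j ≥ j`,
`w_j, g_j`, `v_j` with `‖v_j‖ = 1` (normalise). LIM and `L3c` (for `v_j`), `lim_apply`: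
`Aop mu8 γ ξ v* = 0` (`|V (A v_j) z| ≤ ‖A v_j‖ → 0`, `V_inj`), `F.E3`: `v* = a ψ`. `ball_tendsto`:
`8/10 ≤ |a|² S2 (ball1 ρ) (V ψ) ≤ |a|² (1+ρ/R)^8` (`ball_le_om`, `S2 om (V ψ) = 1`),
`brk g_j v_j → a S2 (ball1 (40R)) (V ψ)`, at least `7/10 |a|` (`tight_ball`).
`c := (1/2) (7/10) sqrt (8/10) (1+ρ/R)^{-4}`. -/
theorem L18 {W : Weyl H} {D : Data} (F : Fam W D) (ρ : ℝ) (hρ : 0 < ρ) :
    ∃ ε2 c : ℝ, ∃ n0 : ℕ, 0 < ε2 ∧ 0 < c ∧ F.n1 ≤ n0 ∧ ∀ n, n0 ≤ n → ∀ (w : ℂ) (g : H),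
    F.Ctr n ε2 w g → S2 (om F.R) (W.V g) = 1 → ∀ v : H, ‖tr W w (F.A n) v‖ ≤ ε2 * ‖v‖ →
    ENNReal.ofReal (8 / 10) * ‖v‖ₑ ^ 2 ≤ S2 (ball1 ρ) (W.V v) →
    c * ‖v‖ ≤ ‖brk W (40 * F.R) g v‖ := by sorry

end Pool.Agent.Helper84.HRT
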