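import Mathlib
import Pool.Agent.Helper84.HRT.DefsS

open MeasureTheory Complex Filter
open scoped ENNReal NNReal ComplexConjugate InnerProductSpace BigOperators Topology

namespace Pool.Agent.Helper84.HRT

variable {H : Type} [NormedAddCommGroup H] [InnerProductSpace ℂ H] [CompleteSpace H]

/-- L19, main case. `Om = Omi R2`, `s = slo 60 R2`, `v' = TO W Om v`, `A2 = S2 Om (V v)`,
`A1 = S2 (s⁻¹ Om) (V (A v)) ≤ A2`. TO_op (`Y = s⁻¹`), TO_norm: `S2 (s⁻¹) (V (A v')) ≤ 2 C A2 ≤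
8C ‖v'‖²`, so `conc` (`M0 = 8C`, `B = 60`; `ρ` comes before `δ0`, `R2`: apply L18 to `ρ` first).
Second alternative: `Kop_out` (`T = 1/e1`), `Omi_out`:
`‖v'‖²/20 ≤ C ((4 R2 e1)^{120} ‖v‖² + e^{-1/(2 e1)} A2)`, so `A2 ≤ 4 ‖v'‖² ≤ e1^{100} ‖v‖²` for
small `e1`. First alternative: TO_op (`Y = 1`): `‖A v'‖² ≤ C (120/R2)² (A1 + A2) ≤ ε2² ‖v'‖²` for
large `R2`, so L18: `c ‖v'‖ ≤ |brk g v'|`; `|brk g v' - brk g v| ≤ C |1_B (V v' - V v)| ≤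
C' A2^{1/2}/R2` (TO_err with `Y = 1`; `Omi_near`; `brk_le`, `ball_le_om`), so
`A2 ≤ C |brk g v|²`. -/
theorem wi_main {W : Weyl H} {D : Data} (F : Fam W D) (R0 : ℝ) (hR0 : 1 ≤ R0) :
    ∃ δ00 : ℝ, 0 < δ00 ∧ ∀ δ0 : ℝ, 0 < δ0 → δ0 ≤ δ00 → ∃ R2 C e10 : ℝ, ∃ n0 : ℕ, 240 ≤ R2 ∧
    1 ≤ C ∧ 0 < e10 ∧ F.n1 ≤ n0 ∧ ∀ n, n0 ≤ n → ∀ e1 : ℝ, 0 < e1 → e1 ≤ e10 →
    F.SepR R0 δ0 n e1 → ∀ (w : ℂ) (g : H), F.Ctr n e1 w g → S2 (om F.R) (W.V g) = 1 →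
    ∀ v : H, S2 (fun z => (slo 60 R2 z)⁻¹ * Omi R2 z) (W.V (tr W w (F.A n) v)) ≤
      S2 (Omi R2) (W.V v) →
    S2 (Omi R2) (W.V v) ≤ ENNReal.ofReal C * ‖brk W (40 * F.R) g v‖ₑ ^ 2 +
      ENNReal.ofReal (e1 ^ 100) * ‖v‖ₑ ^ 2 := by sorry

end Pool.Agent.Helper84.HRT
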