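import Mathlib
import Pool.Agent.Helper84.HRT.DefsA

open MeasureTheory Complex Filter
open scoped ENNReal ComplexConjugate InnerProductSpace BigOperators Topology

namespace Pool.Agent.Helper84.HRT

variable {H : Type} [NormedAddCommGroup H] [InnerProductSpace ℂ H] [CompleteSpace H]

theorem L1a : ∃ C : ℝ, 0 < C ∧ ∀ (Ω s Y : ℂ → ℝ) (G : ℂ → ℂ), IsW Ω s → LogLip Y → Rep G →
    S2 Ω G < ⊤ →
    S2 Y (fun z => ((Ω z : ℝ) : ℂ) * G z - Kop (fun ζ => ((Ω ζ : ℝ) : ℂ) * G ζ) z) ≤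
      ENNReal.ofReal C * S2 (fun z => Y z * s z * Ω z) G := by sorry

end Pool.Agent.Helper84.HRT
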