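import Mathlib
import Pool.Agent.Helper84.HRT.DefsA

open MeasureTheory Complex Filter
open scoped ENNReal ComplexConjugate InnerProductSpace BigOperators Topology

namespace Pool.Agent.Helper84.HRT

variable {H : Type} [NormedAddCommGroup H] [InnerProductSpace ℂ H] [CompleteSpace H]

/-- commutator of a pattern operator with the weight, on the level of functions -/
theorem L1b (C0 : ℝ) : ∃ C : ℝ, 0 < C ∧ ∀ (D : Data) (μ : Measure ℝ) [IsProbabilityMeasure μ]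
    (γ : Fin D.m → ℂ) (ξ : ℝ → ℂ), ∑ i, ‖D.β i‖ ≤ C0 → (∀ i, ‖γ i‖ ≤ 1) → Bd μ C0 ξ →
    ∀ (Ω s Y : ℂ → ℝ) (G : ℂ → ℂ), IsW Ω s → LogLip Y → Rep G → S2 Ω G < ⊤ →
    S2 Y (fun z => actA D μ γ ξ (Kop fun ζ => ((Ω ζ : ℝ) : ℂ) * G ζ) z -
        Kop (fun ζ => ((Ω ζ : ℝ) : ℂ) * actA D μ γ ξ G ζ) z) ≤
      ENNReal.ofReal C * S2 (fun z => Y z * s z * Ω z) G := by sorry

/-- size of pattern operators on weighted spaces -/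
theorem S2_actA (C0 : ℝ) : ∃ C : ℝ, 0 < C ∧ ∀ (D : Data) (μ : Measure ℝ) [IsProbabilityMeasure μ]
    (γ : Fin D.m → ℂ) (ξ : ℝ → ℂ), ∑ i, ‖D.β i‖ ≤ C0 → (∀ i, ‖γ i‖ ≤ 1) → Bd μ C0 ξ →
    ∀ (Y : ℂ → ℝ) (G : ℂ → ℂ), (∀ z ζ, ‖z - ζ‖ ≤ 1 → Y z ≤ 20 * Y ζ) → (∀ z, 0 < Y z) →
    Measurable Y → Continuous G → S2 Y (actA D μ γ ξ G) ≤ ENNReal.ofReal C * S2 Y G := by sorry

theorem rep_actA (D : Data) (μ : Measure ℝ) [IsProbabilityMeasure μ] (M : ℝ)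
    (γ : Fin D.m → ℂ) (ξ : ℝ → ℂ) (hξ : Bd μ M ξ) (G : ℂ → ℂ) (hG : Rep G) :
    Rep (actA D μ γ ξ G) := by sorry

end Pool.Agent.Helper84.HRT
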