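import Mathlib
import Pool.Agent.Helper84.HRT.DefsA

open MeasureTheory Complex Filter
open scoped ENNReal ComplexConjugate InnerProductSpace BigOperators Topology

namespace Pool.Agent.Helper84.HRT

variable {H : Type} [NormedAddCommGroup H] [InnerProductSpace ℂ H] [CompleteSpace H]

/-- (b) of the paper, on the level of vectors -/
theorem L1H (C0 : ℝ) : ∃ C : ℝ, 0 < C ∧ ∀ (H : Type) [NormedAddCommGroup H]
    [InnerProductSpace ℂ H] [CompleteSpace H] (W : Weyl H) (D : Data) (μ : Measure ℝ)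
    [IsProbabilityMeasure μ] (γ : Fin D.m → ℂ) (ξ : ℝ → ℂ), ∑ i, ‖D.β i‖ ≤ C0 →
    (∀ i, ‖γ i‖ ≤ 1) → Bd μ C0 ξ → ∀ (Ω s Y : ℂ → ℝ) (G : ℂ → ℂ), IsW Ω s → LogLip Y → Rep G →
    S2 Ω G < ⊤ →
    S2 Y (W.V (Aop W D μ γ ξ (W.Vs fun z => ((Ω z : ℝ) : ℂ) * G z))) ≤
      ENNReal.ofReal C * (S2 (fun z => Y z * Ω z) (actA D μ γ ξ G) +
        S2 (fun z => Y z * s z * Ω z) G) := by sorry

/-- the norm of `Vs (Ω G)` -/
theorem L1N : ∃ c1 : ℝ, 0 < c1 ∧ ∀ (H : Type) [NormedAddCommGroup H]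
    [InnerProductSpace ℂ H] [CompleteSpace H] (W : Weyl H) (Ω s : ℂ → ℝ) (G : ℂ → ℂ),
    IsW Ω s → (∀ z, s z ≤ c1) → Rep G → S2 Ω G < ⊤ →
    ENNReal.ofReal (‖W.Vs fun z => ((Ω z : ℝ) : ℂ) * G z‖ ^ 2) ≤ S2 Ω G ∧
    S2 Ω G ≤ 4 * ENNReal.ofReal (‖W.Vs fun z => ((Ω z : ℝ) : ℂ) * G z‖ ^ 2) := by sorry

end Pool.Agent.Helper84.HRT
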