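import Mathlib
import Pool.Agent.Helper84.HRT.DefsA

open MeasureTheory Complex Filter
open scoped ENNReal ComplexConjugate InnerProductSpace BigOperators Topology

namespace Pool.Agent.Helper84.HRT

variable {H : Type} [NormedAddCommGroup H] [InnerProductSpace ℂ H] [CompleteSpace H]

theorem L2a : ∃ C : ℝ, 0 < C ∧ ∀ (H : Type) [NormedAddCommGroup H]
    [InnerProductSpace ℂ H] [CompleteSpace H] (W : Weyl H) (Y : ℂ → ℝ) (f : H) (α α' : ℂ),
    LogLip Y → ‖α‖ = 1 → ‖α'‖ = 1 →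
    S2 Y (W.V (W.U α f - W.U α' f)) ≤
      ENNReal.ofReal (C * ‖α - α'‖ ^ 2) * S2 (fun z => (1 + ‖z‖) * Y z) (W.V f) := by sorry

/-- the function `α ↦ (act α G)(z)` is continuous for `G` continuous -/
theorem act_cont (G : ℂ → ℂ) (hG : Continuous G) (z : ℂ) : Continuous fun α => act α G z := by
  sorry

/-- L2, second half. -/
theorem L2b : ∃ C : ℝ, 0 < C ∧ ∀ (H : Type) [NormedAddCommGroup H] [InnerProductSpace ℂ H]
    [CompleteSpace H] (W : Weyl H) (N : ℕ) (M : ℝ) (ξ : ℝ → ℂ) (f : H), 0 < N →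
    (∀ t, ξ (cell N t) = ξ t) → (∀ t, ‖ξ t‖ ≤ M) →
    ENNReal.ofReal (‖XL W (muN N) ξ f - XL W mu8 ξ f‖ ^ 2) ≤
      ENNReal.ofReal (C * M ^ 2 / N ^ 2) * S2 (fun z => 1 + ‖z‖) (W.V f) := by sorry

end Pool.Agent.Helper84.HRT
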