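import Mathlib
import Pool.Agent.Helper84.HRT.DefsS

open MeasureTheory Complex Filter
open scoped ENNReal NNReal ComplexConjugate InnerProductSpace BigOperators Topology

namespace Pool.Agent.Helper84.HRT

variable {H : Type} [NormedAddCommGroup H] [InnerProductSpace ℂ H] [CompleteSpace H]

/-! More on ambiguity functions (`mf_cont, mf_half, mf_norm_le, mf_U` are in L11F). -/

theorem mf_per (W : Weyl H) (ψ : H) (t : ℝ) : mf W ψ (t + 1) = mf W ψ t := by sorry
theorem mf_sub_le (W : Weyl H) (f h : H) (t : ℝ) :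
    ‖mf W f t - mf W h t‖ ≤ ‖f - h‖ * (‖f‖ + ‖h‖) := by sorry
theorem mf_smul (W : Weyl H) (a : ℂ) (f : H) (t : ℝ) :
    mf W (a • f) t = ((‖a‖ ^ 2 : ℝ) : ℂ) * mf W f t := by sorry
theorem mf_expand (W : Weyl H) (u y : H) (a : ℂ) (t : ℝ) :
    mf W y t - ((‖a‖ ^ 2 : ℝ) : ℂ) * mf W u t =
      conj a * inner ℂ u (W.U (node t) (y - a • u)) + a * inner ℂ (y - a • u) (W.U (node t) u) +
        inner ℂ (y - a • u) (W.U (node t) (y - a • u)) := by sorry

end Pool.Agent.Helper84.HRT
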