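import Mathlib
import Pool.Agent.Helper84.HRT.DefsS

open MeasureTheory Complex Filter
open scoped ENNReal NNReal ComplexConjugate InnerProductSpace BigOperators Topology

namespace Pool.Agent.Helper84.HRT

variable {H : Type} [NormedAddCommGroup H] [InnerProductSpace ℂ H] [CompleteSpace H]

/-- L20.2 (ALIGN), deterministic. With `c = twN N w (F.ξs n)`, `ρ_k = r_N κN(k/N)`,
`m_k = mf W u (k/N)`, `D_k = ρ_k |m_k| + Re (c_k m_k) ≥ 0`: apply `F.AIN` to `γ = tw w γs` and to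
the step function equal to `c` except on the cells `≡ k, k + N/2` mod `N`, where it is
`-ρ_k conj m_k/|m_k|` resp. its conjugate (`kN_half`, `mf_half`):
`(2/N) D_k ≤ M d + (d + (2/N)|c'_k - c_k| M)²/k0`, and `|c_k + ρ_k conj m_k/|m_k||² ≤
2 ρ_k D_k/|m_k|`. So for `N ≥ N(ε)`, `D_k ≤ C N d`. (Use `trA_eq`, `trA_mem`, `XL_muN`.) -/
theorem align {W : Weyl H} {D : Data} (F : Fam W D) (M ε : ℝ) (hM : 0 < M) (hε : 0 < ε) :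
    ∃ C : ℝ, ∃ n0 : ℕ, 0 < C ∧ F.n1 ≤ n0 ∧ ∀ n, n0 ≤ n → ∀ (w : ℂ) (u : H), ‖u‖ ≤ M →
    ∀ d : ℝ, 0 ≤ d → d ≤ 1 → ‖tr W w (F.A n) u‖ ≤ d → ∀ k : ℤ,
    ε ≤ ‖mf W u ((k : ℝ) / D.NN n)‖ →
    ‖twN (D.NN n) w (F.ξs n) ((k : ℝ) / D.NN n) +
      ((F.rs n * D.κN (D.NN n) ((k : ℝ) / D.NN n) / ‖mf W u ((k : ℝ) / D.NN n)‖ : ℝ) : ℂ) *
        conj (mf W u ((k : ℝ) / D.NN n))‖ ^ 2 ≤ C * D.NN n * d := by sorry

end Pool.Agent.Helper84.HRT
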