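import Mathlib
import Pool.Agent.Helper84.HRT.DefsS

open MeasureTheory Complex Filter
open scoped ENNReal NNReal ComplexConjugate InnerProductSpace BigOperators Topology

namespace Pool.Agent.Helper84.HRT

variable {H : Type} [NormedAddCommGroup H] [InnerProductSpace ℂ H] [CompleteSpace H]

/-- translation of an optimal triple (`tr_Aop8`, `tr_apply_U`, `XL_congr`, `mf_U`, `Adm.twx`) -/
theorem opt_shift {W : Weyl H} {D : Data} {F : Fam W D} {γ : Fin D.m → ℂ} {ξ : ℝ → ℂ} {ψ : H}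
    (h : F.Opt γ ξ ψ) (τ : ℂ) (ξ' : ℝ → ℂ) (hm : Measurable ξ')
    (hξ' : ∀ᵐ t : ℝ, ξ' t = twx τ ξ t) : F.Opt (D.tw τ γ) ξ' (W.U τ ψ) := by sorry

end Pool.Agent.Helper84.HRT
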