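import Mathlib
import Pool.Agent.Helper84.HRT.DefsS

open MeasureTheory Complex Filter
open scoped ENNReal NNReal ComplexConjugate InnerProductSpace BigOperators Topology

namespace Pool.Agent.Helper84.HRT

variable {H : Type} [NormedAddCommGroup H] [InnerProductSpace ℂ H] [CompleteSpace H]

/-- the localised vectors converge in `H` to the limit of the centre vectors: every subsequence
has a subsequence with `u → u0` in `H` (L3a), and `S2 (ball1 ρ) (V (u-g)) → 0` for every `ρ`
gives `V u0 = V ψ` on every ball, `V_inj`. -/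
theorem loc_tendsto (W : Weyl H) (u g : ℕ → H) (x : ℕ → ℝ) (ψ : H) (C : ℝ)
    (hx : ∀ j, 0 < x j) (hx0 : Tendsto x atTop (nhds 0))
    (hm : ∀ j, S2 (pw 300) (W.V (u j)) ≤ ENNReal.ofReal C)
    (hl : ∀ j, S2 (ball1 (1 / (2 * x j))) (W.V (u j - g j)) ≤ ENNReal.ofReal (x j ^ 720))
    (hg : TendstoLocallyUniformly (fun j => W.V (g j)) (W.V ψ) atTop) :
    Tendsto u atTop (nhds ψ) := by sorry

end Pool.Agent.Helper84.HRT
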