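import Mathlib
import Pool.Agent.Helper84.HRT.DefsS

open MeasureTheory Complex Filter
open scoped ENNReal NNReal ComplexConjugate InnerProductSpace BigOperators Topology

namespace Pool.Agent.Helper84.HRT

variable {H : Type} [NormedAddCommGroup H] [InnerProductSpace ℂ H] [CompleteSpace H]

/-- L20.1. For both sequences normalise the vectors (`ctr_normalise`), `LIM` (twice, `lim_comp`),
helper79's C5 (ratio of the two limits: `τ` with `ξ' = ξ χ_τ` a.e.; file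
Pool/Agent/Helper79/HRT/Coset.lean), `Loc` (for large `j`), `loc_tendsto`; second vector
`y = U τ u'`, `tr_apply_U`, `tr_tr`, `opt_shift`, `S2_pw_U`, `tw_tw`, `twN_twN`. -/
theorem exists_pair {W : Weyl H} {D : Data} (F : Fam W D) (R0 δ0 : ℝ) (hL : F.Loc R0 δ0)
    (n : ℕ → ℕ) (x : ℕ → ℝ) (w w' : ℕ → ℂ) (g g' : ℕ → H) (hn : Tendsto n atTop atTop)
    (hn1 : ∀ j, F.n1 ≤ n j) (hx : ∀ j, 0 < x j) (hxN : ∀ j, x j ^ 40 * (D.NN (n j) : ℝ) ≤ 1)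
    (hs : ∀ j, F.SepR R0 δ0 (n j) (x j ^ 8)) (hc : ∀ j, F.Ctr (n j) (x j ^ 400) (w j) (g j))
    (hc' : ∀ j, F.Ctr (n j) (x j ^ 400) (w' j) (g' j)) :
    ∃ (C1 : ℝ) (τ : ℂ) (φ : ℕ → ℕ), StrictMono φ ∧ ∃ P : Fam.Pair F R0 δ0 C1,
      P.n = n ∘ φ ∧ P.x = x ∘ φ ∧ P.w = w ∘ φ ∧ P.v = fun j => w' (φ j) + τ := by sorry

end Pool.Agent.Helper84.HRT
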