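import Mathlib
import Pool.Agent.Helper84.HRT.DefsS

open MeasureTheory Complex Filter
open scoped ENNReal NNReal ComplexConjugate InnerProductSpace BigOperators Topology

namespace Pool.Agent.Helper84.HRT

variable {H : Type} [NormedAddCommGroup H] [InnerProductSpace ℂ H] [CompleteSpace H]

variable {W : Weyl H} {D : Data} {F : Fam W D} {R0 δ0 C1 : ℝ}


theorem pair_x_lim (P : Fam.Pair F R0 δ0 C1) : Tendsto P.x atTop (nhds 0) := by sorry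

theorem pair_x_le (P : Fam.Pair F R0 δ0 C1) (j : ℕ) : P.x j ≤ 1 := by sorry

/-- `√N x^20 ≤ 1` -/
theorem pair_sqrt_le (P : Fam.Pair F R0 δ0 C1) (j : ℕ) :
    Real.sqrt (D.NN (P.n j)) * P.x j ^ 20 ≤ 1 := by sorry

theorem pair_ph_le (P : Fam.Pair F R0 δ0 C1) (j : ℕ) (k : ℤ) :
    |P.ph j k| ≤ Real.pi / 2 * ‖chi (P.w j - P.v j) (node (P.nd j k)) - 1‖ := by sorry

theorem pair_le_ph (P : Fam.Pair F R0 δ0 C1) (j : ℕ) (k : ℤ) :
    ‖chi (P.w j - P.v j) (node (P.nd j k)) - 1‖ ≤ |P.ph j k| := by sorry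

theorem pair_exists_isMax (P : Fam.Pair F R0 δ0 C1) : ∃ Φ : ℕ → ℝ, P.IsMax Φ := by sorry

theorem pair_max_lim (P : Fam.Pair F R0 δ0 C1) (Φ : ℕ → ℝ) (hΦ : P.IsMax Φ) (h1 : P.ToOne) :
    Tendsto Φ atTop (nhds 0) := by sorry

theorem pair_norm_u (P : Fam.Pair F R0 δ0 C1) (j : ℕ) :
    ‖P.u j‖ ^ 2 ≤ max C1 0 ∧ ‖P.y j‖ ^ 2 ≤ max C1 0 := by sorry

end Pool.Agent.Helper84.HRT
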