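import Mathlib
import Pool.Agent.Helper84.HRT.DefsS

open MeasureTheory Complex Filter
open scoped ENNReal NNReal ComplexConjugate InnerProductSpace BigOperators Topology

namespace Pool.Agent.Helper84.HRT

variable {H : Type} [NormedAddCommGroup H] [InnerProductSpace ℂ H] [CompleteSpace H]

variable {W : Weyl H} {D : Data} {F : Fam W D} {R0 δ0 C1 : ℝ}


/-- L20.3a, from `align` for `(w,u)` and `(v,y)` with `d = x^380`:
`χ_{w-v}(k) c_k = c''_k` for `c = twN N w ξs`, `c'' = twN N v ξs`; `ρ_k = r_N κN ≥ (r/2) ε` for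
large `j` (`P.rad`). -/
theorem pair_chi_align (P : Fam.Pair F R0 δ0 C1) (ε : ℝ) (hε : 0 < ε) : ∃ C : ℝ, 0 < C ∧
    ∀ᶠ j in atTop, ∀ k : ℤ, ε ≤ ‖mf W (P.u j) (P.nd j k)‖ → ε ≤ ‖mf W (P.y j) (P.nd j k)‖ →
    ε ≤ D.κN (D.NN (P.n j)) (P.nd j k) →
    ‖chi (P.w j - P.v j) (node (P.nd j k)) -
      conj (mf W (P.y j) (P.nd j k)) / (‖mf W (P.y j) (P.nd j k)‖ : ℂ) *
        ((‖mf W (P.u j) (P.nd j k)‖ : ℂ) / conj (mf W (P.u j) (P.nd j k)))‖ ≤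
      C * Real.sqrt (D.NN (P.n j)) * P.x j ^ 190 := by sorry

end Pool.Agent.Helper84.HRT
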