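import Mathlib
import Pool.Agent.Helper84.HRT.DefsS
import Pool.Agent.Helper84.HRT.L13

open MeasureTheory Complex Filter
open scoped ENNReal NNReal ComplexConjugate InnerProductSpace BigOperators Topology

namespace Pool.Agent.Helper84.HRT

variable {H : Type} [NormedAddCommGroup H] [InnerProductSpace ℂ H] [CompleteSpace H]

variable {W : Weyl H} {D : Data} {F : Fam W D} {R0 δ0 C1 : ℝ}


/-- the bad points: zeros of the two ambiguity functions (`Opt.fin`, `mf_per`) and the bad set of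
`κ`; lower bounds on the compact set of `Far` points in `[0,1]` by continuity. -/
theorem pair_exists_far (P : Fam.Pair F R0 δ0 C1) : ∃ Z : Finset ℝ,
    (∀ t, mf W P.ψ t = 0 → t ∈ badSet Z) ∧ (∀ t, mf W P.ψ2 t = 0 → t ∈ badSet Z) ∧
    (∀ t ∈ D.κbad, t ∈ badSet Z) ∧
    ∀ del : ℝ, 0 < del → ∃ ε : ℝ, 0 < ε ∧ ∀ᶠ j in atTop, ∀ k : ℤ, Far Z del (P.nd j k) →
      ε ≤ ‖mf W (P.u j) (P.nd j k)‖ ∧ ε ≤ ‖mf W (P.y j) (P.nd j k)‖ ∧
      ε ≤ ‖mf W P.ψ (P.nd j k)‖ ∧ ε ≤ ‖mf W P.ψ2 (P.nd j k)‖ ∧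
      ε ≤ D.κN (D.NN (P.n j)) (P.nd j k) := by sorry

end Pool.Agent.Helper84.HRT
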