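import Mathlib
import Pool.Agent.Helper84.HRT.DefsS

open MeasureTheory Complex Filter
open scoped ENNReal NNReal ComplexConjugate InnerProductSpace BigOperators Topology

namespace Pool.Agent.Helper84.HRT

variable {H : Type} [NormedAddCommGroup H] [InnerProductSpace ℂ H] [CompleteSpace H]

variable {W : Weyl H} {D : Data} {F : Fam W D} {R0 δ0 C1 : ℝ}


/-- L20.3: by `pair_chi_align`, `pair_exists_far`, `pair_phase_eq` (and `mf_sub_le`) uniform
convergence to `1` at the nodes which are `Far Z del`; then `coset_uniform_one` (helper79,
Coset.lean) with `chi_node_coset`. -/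
theorem pair_toOne (P : Fam.Pair F R0 δ0 C1) : P.ToOne := by sorry

end Pool.Agent.Helper84.HRT
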