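import Mathlib
import Pool.Agent.Helper84.HRT.DefsS

open MeasureTheory Complex Filter
open scoped ENNReal NNReal ComplexConjugate InnerProductSpace BigOperators Topology

namespace Pool.Agent.Helper84.HRT

variable {H : Type} [NormedAddCommGroup H] [InnerProductSpace ℂ H] [CompleteSpace H]

variable {W : Weyl H} {D : Data} {F : Fam W D} {R0 δ0 C1 : ℝ}


/-- `D.τ i` is a node (`NN_node`), so `tw w γ` and `tw v γ` have the same limit -/
theorem pair_gam_eq (P : Fam.Pair F R0 δ0 C1) : P.γ2 = P.γ := by sorry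

/-- `F.E3` -/
theorem pair_exists_smul (P : Fam.Pair F R0 δ0 C1) : ∃ a0 : ℂ, a0 ≠ 0 ∧ P.ψ2 = a0 • P.ψ := by
  sorry

/-- `brk_tendsto`, `unif_of_tendsto`, `brk_self`, `tight_ball` for `ψ` -/
theorem pair_a_tendsto (P : Fam.Pair F R0 δ0 C1) : ∃ a0 : ℂ, a0 ≠ 0 ∧
    Tendsto P.a atTop (nhds a0) ∧ P.ψ2 = a0 • P.ψ := by sorry

theorem pair_brk_zero (P : Fam.Pair F R0 δ0 C1) : ∀ᶠ j in atTop,
    brk W (40 * F.R) (P.u j) (P.y j - P.a j • P.u j) = 0 := by sorry

end Pool.Agent.Helper84.HRT
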