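import Mathlib
import Pool.Agent.Helper84.HRT.DefsS

open MeasureTheory Complex Filter
open scoped ENNReal NNReal ComplexConjugate InnerProductSpace BigOperators Topology

namespace Pool.Agent.Helper84.HRT

variable {H : Type} [NormedAddCommGroup H] [InnerProductSpace ℂ H] [CompleteSpace H]

/-- deterministic: `φ_k = arg χ_v(k)`, `conj σ = -i (1/N) Σ φ_k conj(node k)`;
`arg χ_{v-σ}(k) = φ_k + 2 Im (node_k conj σ)`, `Σ conj(node k)² = 0`. -/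
theorem exists_sigma (N : ℕ) (hN : 3 ≤ N) (v : ℂ) (η : ℝ) (hη : η ≤ 1 / 4)
    (h : ∀ k : ℤ, ‖chi v (node ((k : ℝ) / N)) - 1‖ ≤ η) : ∃ σ : ℂ, ‖σ‖ ≤ 2 * η ∧
    ∑ k ∈ Finset.range N, (((chi (v - σ) (node (((k : ℕ) : ℝ) / N))).arg : ℝ) : ℂ) *
      conj (node (((k : ℕ) : ℝ) / N)) = 0 := by sorry

end Pool.Agent.Helper84.HRT
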