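import Mathlib
import Pool.Agent.Helper84.HRT.DefsS

open MeasureTheory Complex Filter
open scoped ENNReal NNReal ComplexConjugate InnerProductSpace BigOperators Topology

namespace Pool.Agent.Helper84.HRT

variable {H : Type} [NormedAddCommGroup H] [InnerProductSpace ℂ H] [CompleteSpace H]

variable {W : Weyl H} {D : Data} {F : Fam W D} {R0 δ0 C1 : ℝ}


/-- shift the second centre by `σ_j → 0` (`exists_sigma`, `pair_toOne`), `y := U σ y`
(`tr_tr`, `tr_apply_U`, `W.cont`, `S2_pw_U`, `tw_tw`, `twN_twN`, `chi_lip`) -/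
theorem pair_exists_shift (P : Fam.Pair F R0 δ0 C1) :
    ∃ (C1' : ℝ) (σ : ℕ → ℂ) (P' : Fam.Pair F R0 δ0 C1'),
    Tendsto σ atTop (nhds 0) ∧ P'.n = P.n ∧ P'.x = P.x ∧ P'.w = P.w ∧
    (P'.v = fun j => P.v j + σ j) ∧ P'.Mom0 := by sorry

end Pool.Agent.Helper84.HRT
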