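import Mathlib
import Pool.Agent.Helper84.HRT.DefsS

open MeasureTheory Complex Filter
open scoped ENNReal NNReal ComplexConjugate InnerProductSpace BigOperators Topology

namespace Pool.Agent.Helper84.HRT

variable {H : Type} [NormedAddCommGroup H] [InnerProductSpace ℂ H] [CompleteSpace H]

variable {W : Weyl H} {D : Data} {F : Fam W D} {R0 δ0 C1 : ℝ}


/-- L20.5. `z := y - a u`: `A^w z = (A^w - A^v) y + A^v y - a A^w u`, norm `≤ 2 C0 Φ ‖y‖ +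
(1+|a|) x^380` (`tr_sub_le`, `pair_le_ph`); `WI` with `e1 = x^8` (`e1^100 = x^800`),
`|brk g z| = |brk (g-u) z| ≤ x^360 ‖z‖` (`pair_brk_zero`, `P.loc`); `x^180 ≤ Φ` by `Big`. -/
theorem pair_diff_small (P : Fam.Pair F R0 δ0 C1) (hWI : F.WI R0 δ0) (Φ : ℕ → ℝ)
    (hΦ : P.IsMax Φ) (hb : P.Big) : ∃ C : ℝ, 0 < C ∧ ∀ᶠ j in atTop,
    S2 (pw (-60)) (W.V (P.y j - P.a j • P.u j)) ≤ ENNReal.ofReal (C * Φ j ^ 2) := by sorry

end Pool.Agent.Helper84.HRT
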