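import Mathlib
import Pool.Agent.Helper84.HRT.DefsS

open MeasureTheory Complex Filter
open scoped ENNReal NNReal ComplexConjugate InnerProductSpace BigOperators Topology

namespace Pool.Agent.Helper84.HRT

variable {H : Type} [NormedAddCommGroup H] [InnerProductSpace ℂ H] [CompleteSpace H]

/-- Arzelà-Ascoli -/
theorem arzela (f : ℕ → ℝ → ℂ) (L : ℝ) (hp : ∀ j t, f j (t + 1) = f j t)
    (hb : ∀ j t, ‖f j t‖ ≤ L) (hl : ∀ j s t, ‖f j s - f j t‖ ≤ L * |s - t|) :
    ∃ φ : ℕ → ℕ, StrictMono φ ∧ ∃ g : ℝ → ℂ, Continuous g ∧ (∀ t, g (t + 1) = g t) ∧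
      TendstoUniformly (fun j => f (φ j)) g atTop := by sorry

end Pool.Agent.Helper84.HRT
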