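import Mathlib
import Pool.Agent.Helper84.HRT.DefsS

open MeasureTheory Complex Filter
open scoped ENNReal NNReal ComplexConjugate InnerProductSpace BigOperators Topology

namespace Pool.Agent.Helper84.HRT

variable {H : Type} [NormedAddCommGroup H] [InnerProductSpace ℂ H] [CompleteSpace H]

/-- the linear terms are bounded and Lipschitz (`inner_pw` with `k = 60`, `L2w`, `S2_pw_U`,
`U_adj`, `node_lip`) -/
theorem lin_lip (W : Weyl H) : ∃ C : ℝ, 0 < C ∧ ∀ (u z : H) (A B : ℝ), 0 ≤ A → 0 ≤ B →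
    S2 (pw 61) (W.V u) ≤ ENNReal.ofReal (A ^ 2) → S2 (pw (-60)) (W.V z) ≤ ENNReal.ofReal (B ^ 2) →
    ∀ s t : ℝ, ‖(inner ℂ u (W.U (node t) z) : ℂ)‖ ≤ C * A * B ∧
      ‖(inner ℂ z (W.U (node t) u) : ℂ)‖ ≤ C * A * B ∧
      ‖(inner ℂ u (W.U (node t) z) : ℂ) - inner ℂ u (W.U (node s) z)‖ ≤ C * A * B * |t - s| ∧
      ‖(inner ℂ z (W.U (node t) u) : ℂ) - inner ℂ z (W.U (node s) u)‖ ≤ C * A * B * |t - s| := by
  sorry

end Pool.Agent.Helper84.HRT
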