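import Mathlib
import Pool.Agent.Helper84.HRT.DefsS

open MeasureTheory Complex Filter
open scoped ENNReal NNReal ComplexConjugate InnerProductSpace BigOperators Topology

namespace Pool.Agent.Helper84.HRT

variable {H : Type} [NormedAddCommGroup H] [InnerProductSpace ℂ H] [CompleteSpace H]

variable {W : Weyl H} {D : Data} {F : Fam W D} {R0 δ0 C1 : ℝ}


/-- L20.6. `mf_expand`, `lin_lip` (with `B = √C Φ`), `arzela` for the linear terms divided by `Φ`;
the quadratic term is `≤ ‖z‖² ≤ (C Φ²)^{5/6} (C')^{1/6}` (`interp`), `o(Φ)`. -/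
theorem pair_dq_limit (P : Fam.Pair F R0 δ0 C1) (hWI : F.WI R0 δ0) (Φ : ℕ → ℝ)
    (hΦ : P.IsMax Φ) (hb : P.Big) (h1 : P.ToOne) : ∃ φ : ℕ → ℕ, StrictMono φ ∧ ∃ g : ℝ → ℂ,
      Continuous g ∧ (∀ t, g (t + 1) = g t) ∧
      TendstoUniformly (fun j => P.dq Φ (φ j)) g atTop := by sorry

end Pool.Agent.Helper84.HRT
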