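import Mathlib
import Pool.Agent.Helper84.HRT.DefsS

open MeasureTheory Complex Filter
open scoped ENNReal NNReal ComplexConjugate InnerProductSpace BigOperators Topology

namespace Pool.Agent.Helper84.HRT

variable {H : Type} [NormedAddCommGroup H] [InnerProductSpace ℂ H] [CompleteSpace H]

/-- `log (1+z)` and angles (`Complex.norm_log_one_add_sub_self_le`) -/
theorem arg_expand (z ζ : ℂ) (η : ℝ) (hz : ‖z‖ ≤ 1 / 2) (hζ : ‖ζ‖ = 1) (hη : η ≤ 1 / 2)
    (h : ‖ζ - conj (1 + z) / (‖1 + z‖ : ℂ)‖ ≤ η) : |ζ.arg + z.im| ≤ ‖z‖ ^ 2 + 2 * η := by sorry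

end Pool.Agent.Helper84.HRT
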