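import Mathlib
import Pool.Agent.Helper84.HRT.DefsS

open MeasureTheory Complex Filter
open scoped ENNReal NNReal ComplexConjugate InnerProductSpace BigOperators Topology

namespace Pool.Agent.Helper84.HRT

variable {H : Type} [NormedAddCommGroup H] [InnerProductSpace ℂ H] [CompleteSpace H]

variable {W : Weyl H} {D : Data} {F : Fam W D} {R0 δ0 C1 : ℝ}


/-- exact coset relations of the phases (`chi_node_coset`, all phases `< 2π/p` eventually) -/
theorem pair_coset_ph (P : Fam.Pair F R0 δ0 C1) (h1 : P.ToOne) (p : ℕ) (hp : p.Prime) :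
    ∀ᶠ j in atTop, ∀ k : ℤ, ∑ i ∈ Finset.range p,
      P.ph j (k + (i : ℤ) * ((D.NN (P.n j) / p : ℕ) : ℤ)) = 0 := by sorry

end Pool.Agent.Helper84.HRT
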