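import Mathlib
import Pool.Agent.Helper84.HRT.DefsS

open MeasureTheory Complex Filter
open scoped ENNReal NNReal ComplexConjugate InnerProductSpace BigOperators Topology

namespace Pool.Agent.Helper84.HRT

variable {H : Type} [NormedAddCommGroup H] [InnerProductSpace ℂ H] [CompleteSpace H]

variable {W : Weyl H} {D : Data} {F : Fam W D} {R0 δ0 C1 : ℝ}


/-- L20.7a: on `Far` nodes `φ_k/Φ` is close to `S0(k/N)`, `S0 = -Im (g/(|a0|² m))`. Use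
`pair_chi_align`, `arg_expand` with `z = Φ dq/(|a|² mf u)` (`mf y = |a|² (mf u) (1+z)`);
`√N x^190/Φ ≤ x^10` by `Big`; `pair_max_lim`. -/
theorem pair_ph_far (P : Fam.Pair F R0 δ0 C1) (Φ : ℕ → ℝ) (hΦ : P.IsMax Φ) (hb : P.Big)
    (h1 : P.ToOne) (g : ℝ → ℂ) (hg : Continuous g) (hper : ∀ t, g (t + 1) = g t)
    (hlim : TendstoUniformly (fun j => P.dq Φ j) g atTop)
    (a0 : ℂ) (ha0 : a0 ≠ 0) (ha : Tendsto P.a atTop (nhds a0))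
    (Z : Finset ℝ) (hZ : ∀ del : ℝ, 0 < del → ∃ ε : ℝ, 0 < ε ∧ ∀ᶠ j in atTop, ∀ k : ℤ,
      Far Z del (P.nd j k) → ε ≤ ‖mf W (P.u j) (P.nd j k)‖ ∧ ε ≤ ‖mf W (P.y j) (P.nd j k)‖ ∧
      ε ≤ ‖mf W P.ψ (P.nd j k)‖ ∧ ε ≤ ‖mf W P.ψ2 (P.nd j k)‖ ∧
      ε ≤ D.κN (D.NN (P.n j)) (P.nd j k)) (del ε : ℝ) (hdel : 0 < del) (hε : 0 < ε) :
    ∀ᶠ j in atTop, ∀ k : ℤ, Far Z del (P.nd j k) →
      |P.ph j k / Φ j + (g (P.nd j k) / (((‖a0‖ ^ 2 : ℝ) : ℂ) * mf W P.ψ (P.nd j k))).im| ≤ ε := by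
  sorry

end Pool.Agent.Helper84.HRT
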