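import Mathlib
import Pool.Agent.Helper84.HRT.DefsS

open MeasureTheory Complex Filter
open scoped ENNReal NNReal ComplexConjugate InnerProductSpace BigOperators Topology

namespace Pool.Agent.Helper84.HRT

variable {H : Type} [NormedAddCommGroup H] [InnerProductSpace ℂ H] [CompleteSpace H]

variable {W : Weyl H} {D : Data} {F : Fam W D} {R0 δ0 C1 : ℝ}


/-- L20.7: contradiction by `coset_uniform_zero` (Pool/Agent/Helper79/HRT/CosetZero.lean) with
`f j (k/N) = ph j k/Φ j`. Pass to the subsequence of `pair_dq_limit` with `P.comp`; uses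
`pair_toOne`, `pair_exists_isMax`, `pair_a_tendsto`, `pair_exists_far`, `pair_ph_far`,
`pair_coset_ph`, `Mom0`. -/
theorem pair_absurd (P : Fam.Pair F R0 δ0 C1) (hWI : F.WI R0 δ0) (h0 : P.Mom0) (hb : P.Big) :
    False := by
  sorry

end Pool.Agent.Helper84.HRT
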