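import Mathlib
import Pool.Agent.Helper84.HRT.DefsS

open MeasureTheory Complex Filter
open scoped ENNReal NNReal ComplexConjugate InnerProductSpace BigOperators Topology

namespace Pool.Agent.Helper84.HRT

variable {H : Type} [NormedAddCommGroup H] [InnerProductSpace ℂ H] [CompleteSpace H]

/-- L20 (STEP): by contradiction with `Cs = τ0 = j+1`, `exists_pair`, `pair_exists_shift`,
`pair_absurd`. -/
theorem L20 {W : Weyl H} {D : Data} (F : Fam W D) (R0 δ0 : ℝ) (hL : F.Loc R0 δ0)
    (hWI : F.WI R0 δ0) : F.StepC R0 δ0 := by sorry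

end Pool.Agent.Helper84.HRT
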