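import Mathlib
import Pool.Agent.Helper84.HRT.DefsS
import Pool.Agent.Helper84.HRT.L14

open MeasureTheory Complex Filter
open scoped ENNReal NNReal ComplexConjugate InnerProductSpace BigOperators Topology

namespace Pool.Agent.Helper84.HRT

variable {H : Type} [NormedAddCommGroup H] [InnerProductSpace ℂ H] [CompleteSpace H]

/-- pure numbers for L21: if `χ_v` is within `Cs √N x^180` of `1` at all nodes, `x^40 N ≤ 1`, then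
`|v| ≤ 1` or `|v| ≥ 2 x^{-20000}`. (`dio` of L14 with `al = Cs √N x^180 ≤ Cs x^160 ≤ x^156`, no bad
nodes, `m` maximal with `2^m al ≤ 1/100`; `2^{m-1} ≥ x^{-156}/400`, `(N/2π)^{m-1} ≥ 2^{130(m-1)}
≥ 8 x^{-20000}` for large `N`.) -/
theorem dio_num (Cs : ℝ) (hCs : 0 < Cs) : ∃ N0 : ℕ, ∀ N : ℕ, N0 ≤ N → ∀ x : ℝ, 0 < x →
    x ^ 40 * (N : ℝ) ≤ 1 → ∀ v : ℂ,
    (∀ k : ℤ, ‖chi v (node ((k : ℝ) / N)) - 1‖ ≤ Cs * Real.sqrt N * x ^ 180) →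
    ‖v‖ ≤ 1 ∨ 2 * (x ^ 20000)⁻¹ ≤ ‖v‖ := by sorry

end Pool.Agent.Helper84.HRT
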