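import Mathlib
import Pool.Agent.Helper84.HRT.DefsS

open MeasureTheory Complex Filter
open scoped ENNReal NNReal ComplexConjugate InnerProductSpace BigOperators Topology

namespace Pool.Agent.Helper84.HRT

variable {H : Type} [NormedAddCommGroup H] [InnerProductSpace ℂ H] [CompleteSpace H]

/-- L21: the step conclusion gives SEP at the new precision `x^400` (`dio_num` with
`v = w - w' - τ`; in the first case `|w-w'| ≤ τ0 + 1 < N^600`, so `≤ R0` by `Coarse`). -/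
theorem L21 {W : Weyl H} {D : Data} (F : Fam W D) (R0 δ0 : ℝ) (hC : F.Coarse R0 δ0)
    (hS : F.StepC R0 δ0) : ∃ n0 : ℕ, F.n1 ≤ n0 ∧ ∀ n, n0 ≤ n → ∀ x : ℝ, 0 < x →
    x ^ 40 * (D.NN n : ℝ) ≤ 1 → x ^ 400 ≤ δ0 → F.SepR R0 δ0 n (x ^ 8) →
    F.SEP R0 n (x ^ 400) := by sorry

end Pool.Agent.Helper84.HRT
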