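import Mathlib
import Pool.Agent.Helper84.HRT.DefsS

open MeasureTheory Complex Filter
open scoped ENNReal NNReal ComplexConjugate InnerProductSpace BigOperators Topology

namespace Pool.Agent.Helper84.HRT

variable {H : Type} [NormedAddCommGroup H] [InnerProductSpace ℂ H] [CompleteSpace H]

/-- L22: for large `n`, SEP holds at all precisions `0 < e ≤ δ0`. For `e ≥ N^{-10}` by `Coarse`
(`e^{-50} ≤ N^{500}`); then induction on `i`: SEP for `e ≥ (N^{-10})^{50^i}` (`x = e^{1/400}`,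
`x^8 = e^{1/50}`, `x^40 N ≤ 1` as `e ≤ N^{-10}`). -/
theorem L22 {W : Weyl H} {D : Data} (F : Fam W D) (R0 δ0 : ℝ) (hδ : 0 < δ0)
    (hC : F.Coarse R0 δ0) (hS : F.StepC R0 δ0) : ∃ n0 : ℕ, F.n1 ≤ n0 ∧ ∀ n, n0 ≤ n →
    ∀ e : ℝ, 0 < e → e ≤ δ0 → F.SEP R0 n e := by sorry

end Pool.Agent.Helper84.HRT
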