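import Mathlib
import Pool.Agent.Helper84.HRT.DefsS

open MeasureTheory Complex Filter
open scoped ENNReal NNReal ComplexConjugate InnerProductSpace BigOperators Topology

namespace Pool.Agent.Helper84.HRT

variable {H : Type} [NormedAddCommGroup H] [InnerProductSpace ℂ H] [CompleteSpace H]

/-- centres of arbitrarily high precision: `F.sing`, `L9` with constant `s = ε'`,
`M0 = 1`; `mass univ > 0` so `E` is nonempty; `ctr_normalise`. -/
theorem exists_centre {W : Weyl H} {D : Data} (F : Fam W D) (n : ℕ) (hn : F.n1 ≤ n) (ε : ℝ)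
    (hε : 0 < ε) : ∃ (w : ℂ) (g : H), F.Ctr n ε w g ∧ S2 (om F.R) (W.V g) = 1 := by sorry

end Pool.Agent.Helper84.HRT
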