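import Mathlib
import Pool.Agent.Helper84.HRT.DefsS

open MeasureTheory Complex Filter
open scoped ENNReal NNReal ComplexConjugate InnerProductSpace BigOperators Topology

namespace Pool.Agent.Helper84.HRT

variable {H : Type} [NormedAddCommGroup H] [InnerProductSpace ℂ H] [CompleteSpace H]

/-- compactness of the patterns at a fixed level: subsequence with `tw (w_j) γs → γ` and
`twN N (w_j) ξs (k/N) → ξ (k/N)`, `k < N` (`finite_compact` of L6A may help). -/
theorem pattern_compact {W : Weyl H} {D : Data} (F : Fam W D) (n : ℕ) (hn : F.n1 ≤ n)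
    (w : ℕ → ℂ) : ∃ φ : ℕ → ℕ, StrictMono φ ∧ ∃ γ ∈ D.Γ, ∃ ξ : ℝ → ℂ,
    D.AdmN (D.NN n) (F.rs n) ξ ∧ ∀ (f : ℕ → H) (f0 : H), Tendsto f atTop (nhds f0) →
      Tendsto (fun j => tr W (w (φ j)) (F.A n) (f j)) atTop
        (nhds (Aop W D (muN (D.NN n)) γ ξ f0)) := by sorry

end Pool.Agent.Helper84.HRT
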