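import Mathlib
import Pool.Agent.Helper84.HRT.DefsS

open MeasureTheory Complex Filter
open scoped ENNReal NNReal ComplexConjugate InnerProductSpace BigOperators Topology

namespace Pool.Agent.Helper84.HRT

variable {H : Type} [NormedAddCommGroup H] [InnerProductSpace ℂ H] [CompleteSpace H]

/-- L23: SEP at all precisions for one `n` gives a null vector. `x_j → 0`, centres of precision
`x_j^400` (`exists_centre`), `Loc`, `L3a`, `pattern_compact`. -/
theorem L23 {W : Weyl H} {D : Data} (F : Fam W D) (R0 δ0 : ℝ) (hδ : 0 < δ0)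
    (hL : F.Loc R0 δ0) (n : ℕ)
    (hn : F.n1 ≤ n) (hsep : ∀ e : ℝ, 0 < e → e ≤ δ0 → F.SEP R0 n e) :
    ∃ γ ∈ D.Γ, ∃ ξ : ℝ → ℂ, D.AdmN (D.NN n) (F.rs n) ξ ∧
      ∃ u : H, u ≠ 0 ∧ Aop W D (muN (D.NN n)) γ ξ u = 0 := by sorry

end Pool.Agent.Helper84.HRT
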