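import Mathlib
import Pool.Agent.Helper84.HRT.DefsA

open MeasureTheory Complex Filter
open scoped ENNReal ComplexConjugate InnerProductSpace BigOperators Topology

namespace Pool.Agent.Helper84.HRT

variable {H : Type} [NormedAddCommGroup H] [InnerProductSpace ℂ H] [CompleteSpace H]

theorem L3a (W : Weyl H) (f : ℕ → H) (C : ℝ) (hf : ∀ j, ‖f j‖ ≤ C)
    (hb : ∀ j, S2 (fun z => 1 + ‖z‖) (W.V (f j)) ≤ ENNReal.ofReal C) :
    ∃ φ : ℕ → ℕ, StrictMono φ ∧ ∃ g : H, Tendsto (fun j => f (φ j)) atTop (𝓝 g) := by sorry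

/-- weak compactness in H -/
theorem L3c (W : Weyl H) (f : ℕ → H) (C : ℝ) (hf : ∀ j, ‖f j‖ ≤ C) :
    ∃ φ : ℕ → ℕ, StrictMono φ ∧ ∃ g : H, ‖g‖ ≤ C ∧
      (∀ h : H, Tendsto (fun j => (inner ℂ h (f (φ j)) : ℂ)) atTop (𝓝 (inner ℂ h g))) ∧
      TendstoLocallyUniformly (fun j => W.V (f (φ j))) (W.V g) atTop := by sorry

/-- if `V f_j → V g` locally uniformly, and tight, then norm convergence -/
theorem L3d (W : Weyl H) (f : ℕ → H) (g : H) (C : ℝ)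
    (hb : ∀ j, S2 (fun z => 1 + ‖z‖) (W.V (f j)) ≤ ENNReal.ofReal C)
    (h : ∀ z, Tendsto (fun j => W.V (f j) z) atTop (𝓝 (W.V g z))) :
    Tendsto f atTop (𝓝 g) := by sorry

end Pool.Agent.Helper84.HRT
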