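import Mathlib
import Pool.Agent.Helper84.HRT.DefsA

open MeasureTheory Complex Filter
open scoped ENNReal ComplexConjugate InnerProductSpace BigOperators Topology

namespace Pool.Agent.Helper84.HRT

variable {H : Type} [NormedAddCommGroup H] [InnerProductSpace ℂ H] [CompleteSpace H]

theorem L3b (R : ℝ) (hR : 4 ≤ R) (G : ℕ → ℂ → ℂ) (hG : ∀ j, Rep (G j)) (C : ℝ)
    (hb : ∀ j, S2 (om R) (G j) ≤ ENNReal.ofReal C) :
    ∃ φ : ℕ → ℕ, StrictMono φ ∧ ∃ G0 : ℂ → ℂ, Rep G0 ∧ S2 (om R) G0 ≤ ENNReal.ofReal C ∧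
      TendstoLocallyUniformly (fun j => G (φ j)) G0 atTop := by sorry

end Pool.Agent.Helper84.HRT
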