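import Mathlib
import Pool.Agent.Helper84.HRT.DefsA

open MeasureTheory Complex Filter
open scoped ENNReal ComplexConjugate InnerProductSpace BigOperators Topology

namespace Pool.Agent.Helper84.HRT

variable {H : Type} [NormedAddCommGroup H] [InnerProductSpace ℂ H] [CompleteSpace H]

/-- Fatou -/
theorem S2_fatou (Y : ℂ → ℝ) (hY : Measurable Y) (G : ℕ → ℂ → ℂ) (G0 : ℂ → ℂ) (C : ℝ≥0∞)
    (hG : ∀ j, Continuous (G j)) (h : ∀ z, Tendsto (fun j => G j z) atTop (𝓝 (G0 z)))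
    (hb : ∀ j, S2 Y (G j) ≤ C) : S2 Y G0 ≤ C := by sorry

/-- no loss of mass: the om-norm converges when the omm-norms are bounded -/
theorem S2_tight (R : ℝ) (hR : 4 ≤ R) (G : ℕ → ℂ → ℂ) (G0 : ℂ → ℂ) (C : ℝ)
    (hG : ∀ j, Continuous (G j)) (h : TendstoLocallyUniformly G G0 atTop)
    (hb : ∀ j, S2 (omm R) (G j) ≤ ENNReal.ofReal C) :
    Tendsto (fun j => S2 (om R) (G j)) atTop (𝓝 (S2 (om R) G0)) := by sorry

/-- same with the weights 1 and 1+|z| -/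
theorem S2_tight1 (G : ℕ → ℂ → ℂ) (G0 : ℂ → ℂ) (C : ℝ)
    (hG : ∀ j, Continuous (G j)) (h : TendstoLocallyUniformly G G0 atTop)
    (hb : ∀ j, S2 (fun z => 1 + ‖z‖) (G j) ≤ ENNReal.ofReal C) :
    Tendsto (fun j => S2 (fun _ => 1) (fun z => G j z - G0 z)) atTop (𝓝 0) := by sorry

end Pool.Agent.Helper84.HRT
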