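import Mathlib
import Pool.Agent.Helper84.HRT.DefsA

open MeasureTheory Complex Filter
open scoped ENNReal ComplexConjugate InnerProductSpace BigOperators Topology

namespace Pool.Agent.Helper84.HRT

variable {H : Type} [NormedAddCommGroup H] [InnerProductSpace ℂ H] [CompleteSpace H]

theorem L4 (W : Weyl H) (D : Data) {rb r1 g c C : ℝ} (hG : Good W D rb r1 g c C) :
    ∃ c' C' : ℝ, 0 < c' ∧ 0 < C' ∧ ∃ n0 : ℕ, ∀ n, n0 ≤ n → ∀ γ ∈ D.Γ, ∀ ξ,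
      D.AdmN (D.NN n) rb ξ → ∀ v : H,
      (inner ℂ v (XL W (muN (D.NN n)) ξ v) : ℂ).re ≤
        -c' * ‖v‖ ^ 2 + C' * ‖Aop W D (muN (D.NN n)) γ ξ v‖ ^ 2 := by sorry

end Pool.Agent.Helper84.HRT
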