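import Mathlib
import Pool.Agent.Helper84.HRT.DefsA

open MeasureTheory Complex Filter
open scoped ENNReal ComplexConjugate InnerProductSpace BigOperators Topology

namespace Pool.Agent.Helper84.HRT

variable {H : Type} [NormedAddCommGroup H] [InnerProductSpace ℂ H] [CompleteSpace H]

theorem L4a (C0 : ℝ) : ∃ C : ℝ, 0 < C ∧ ∀ (H : Type) [NormedAddCommGroup H]
    [InnerProductSpace ℂ H] [CompleteSpace H] (W : Weyl H) (N : ℕ) (ξ : ℝ → ℂ), 0 < N →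
    Bd (muN N) C0 ξ → ∀ (ρ : ℝ) (v : H), 1 ≤ ρ →
    Integrable (fun w => (inner ℂ (vw W ρ v w) (XL W (muN N) ξ (vw W ρ v w)) : ℂ).re) dA ∧
    |∫ w, (inner ℂ (vw W ρ v w) (XL W (muN N) ξ (vw W ρ v w)) : ℂ).re ∂dA -
      nrho ρ * (inner ℂ v (XL W (muN N) ξ v) : ℂ).re| ≤ C / ρ * nrho ρ * ‖v‖ ^ 2 := by sorry

end Pool.Agent.Helper84.HRT
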