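import Mathlib
import Pool.Agent.Helper84.HRT.DefsA

open MeasureTheory Complex Filter
open scoped ENNReal ComplexConjugate InnerProductSpace BigOperators Topology

namespace Pool.Agent.Helper84.HRT

variable {H : Type} [NormedAddCommGroup H] [InnerProductSpace ℂ H] [CompleteSpace H]

theorem L4b : ∃ C : ℝ, 0 < C ∧ ∀ (H : Type) [NormedAddCommGroup H]
    [InnerProductSpace ℂ H] [CompleteSpace H] (W : Weyl H) (ρ : ℝ) (v : H), 1 ≤ ρ →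
    Integrable (fun w => ‖vw W ρ v w‖ ^ 2) dA ∧
    |∫ w, ‖vw W ρ v w‖ ^ 2 ∂dA - nrho ρ * ‖v‖ ^ 2| ≤ C / ρ * nrho ρ * ‖v‖ ^ 2 := by sorry

theorem L4c (C0 : ℝ) : ∃ C : ℝ, 0 < C ∧ ∀ (H : Type) [NormedAddCommGroup H]
    [InnerProductSpace ℂ H] [CompleteSpace H] (W : Weyl H) (D : Data) (N : ℕ)
    (γ : Fin D.m → ℂ) (ξ : ℝ → ℂ), 0 < N → ∑ i, ‖D.β i‖ ≤ C0 → (∀ i, ‖γ i‖ ≤ 1) →
    Bd (muN N) C0 ξ → ∀ (ρ : ℝ) (v : H), 1 ≤ ρ →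
    Integrable (fun w => ‖Aop W D (muN N) γ ξ (vw W ρ v w)‖ ^ 2) dA ∧
    ∫ w, ‖Aop W D (muN N) γ ξ (vw W ρ v w)‖ ^ 2 ∂dA ≤
      nrho ρ * (C * ‖Aop W D (muN N) γ ξ v‖ ^ 2 + C / ρ ^ 2 * ‖v‖ ^ 2) := by sorry

theorem L4d : ∃ C : ℝ, 0 < C ∧ ∀ (H : Type) [NormedAddCommGroup H]
    [InnerProductSpace ℂ H] [CompleteSpace H] (W : Weyl H) (ρ : ℝ) (v : H), 1 ≤ ρ →
    ∫⁻ w, S2 (fun z => 1 + ‖z‖) (W.V (W.U w (vw W ρ v w))) ∂dA ≤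
      ENNReal.ofReal (C * ρ ^ 2 * nrho ρ * ‖v‖ ^ 2) := by sorry

end Pool.Agent.Helper84.HRT
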