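import Mathlib
import Pool.Agent.Helper84.HRT.DefsA

open MeasureTheory Complex Filter
open scoped ENNReal ComplexConjugate InnerProductSpace BigOperators Topology

namespace Pool.Agent.Helper84.HRT

variable {H : Type} [NormedAddCommGroup H] [InnerProductSpace ℂ H] [CompleteSpace H]

theorem Omw_isW {ρ : ℝ} (hρ : 1 ≤ ρ) (w : ℂ) : IsW (Omw ρ w) (fun _ => 1 / ρ) := by sorry

theorem nrho_pos {ρ : ℝ} (hρ : 1 ≤ ρ) : 0 < nrho ρ := by sorry

theorem Omw_lintegral {ρ : ℝ} (hρ : 1 ≤ ρ) (z : ℂ) :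
    ∫⁻ w, ENNReal.ofReal (Omw ρ w z ^ 2) ∂dA = ENNReal.ofReal (nrho ρ) := by sorry

theorem vw_cont (W : Weyl H) {ρ : ℝ} (hρ : 1 ≤ ρ) (v : H) : Continuous (vw W ρ v) := by sorry

end Pool.Agent.Helper84.HRT
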