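import Mathlib
import Pool.Agent.Helper84.HRT.DefsA

open MeasureTheory Complex Filter
open scoped ENNReal ComplexConjugate InnerProductSpace BigOperators Topology

namespace Pool.Agent.Helper84.HRT

variable {H : Type} [NormedAddCommGroup H] [InnerProductSpace ℂ H] [CompleteSpace H]

theorem riccati_lower (B X : H →L[ℂ] H) (hB : ∀ f h, inner ℂ (B f) h = inner ℂ f (B h))
    (hX : ∀ f h, inner ℂ (X f) h = inner ℂ f (X h)) (g C0 c C1 s1 : ℝ) (hg : 0 < g) (hC0 : 0 < C0)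
    (hc : 0 < c) (hC1 : 0 < C1) (hs1 : 0 < s1) (hBg : ∀ u, g * ‖u‖ ≤ ‖B u‖) (hXn : ‖X‖ ≤ C0)
    (hR : ∀ s : ℝ, 0 < s → s ≤ s1 → ∀ u : H,
      s * (inner ℂ u (X u) : ℂ).re ≤ -c * ‖u‖ ^ 2 + C1 * ‖B u + (s : ℂ) • X u‖ ^ 2)
    (hinv : ∀ s : ℝ, 0 ≤ s → s < s1 → ∃ m : ℝ, 0 < m ∧ ∀ u : H, m * ‖u‖ ≤ ‖B u + (s : ℂ) • X u‖) :
    ∀ s : ℝ, 0 ≤ s → s ≤ s1 → ∀ u : H,
      -((2 / g + C1 * s1 * (2 * C0 / g)) * ‖B u + (s : ℂ) • X u‖ ^ 2) ≤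
        (inner ℂ u (B u + (s : ℂ) • X u) : ℂ).re := by sorry

end Pool.Agent.Helper84.HRT
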