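import Mathlib
import Pool.Agent.Helper84.HRT.DefsA

open MeasureTheory Complex Filter
open scoped ENNReal ComplexConjugate InnerProductSpace BigOperators Topology

namespace Pool.Agent.Helper84.HRT

variable {H : Type} [NormedAddCommGroup H] [InnerProductSpace ℂ H] [CompleteSpace H]

theorem riccati_blow (g C0 c C1 τ : ℝ) (hg : 0 < g) (hC0 : 0 < C0) (hc : 0 < c) (hC1 : 0 < C1)
    (hτ : 0 < τ) : ∃ ε : ℝ, 0 < ε ∧ ∀ (H : Type) [NormedAddCommGroup H]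
    [InnerProductSpace ℂ H] [CompleteSpace H] (B X : H →L[ℂ] H),
    (∀ f h, inner ℂ (B f) h = inner ℂ f (B h)) → (∀ f h, inner ℂ (X f) h = inner ℂ f (X h)) →
    (∀ u, g * ‖u‖ ≤ ‖B u‖) → ‖X‖ ≤ C0 →
    (∀ s : ℝ, 0 < s → s ≤ 1 + τ → ∀ u : H,
      s * (inner ℂ u (X u) : ℂ).re ≤ -c * ‖u‖ ^ 2 + C1 * ‖B u + (s : ℂ) • X u‖ ^ 2) →
    (∀ s : ℝ, 0 ≤ s → s ≤ 1 + τ → ∃ m : ℝ, 0 < m ∧ ∀ u : H, m * ‖u‖ ≤ ‖B u + (s : ℂ) • X u‖) →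
    ∀ u : H, ε * ‖u‖ ≤ ‖B u + X u‖ := by sorry

end Pool.Agent.Helper84.HRT
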