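import Mathlib
import Pool.Agent.Helper84.HRT.DefsA

open MeasureTheory Complex Filter
open scoped ENNReal ComplexConjugate InnerProductSpace BigOperators Topology

namespace Pool.Agent.Helper84.HRT

variable {H : Type} [NormedAddCommGroup H] [InnerProductSpace ℂ H] [CompleteSpace H]

/-- compactness of the parameters at finite level -/
theorem finite_compact (W : Weyl H) (D : Data) (N : ℕ) (hN : 0 < N) (h2 : 2 ∣ N) (ρ : ℕ → ℝ)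
    (r : ℝ) (γ : ℕ → Fin D.m → ℂ) (ξ : ℕ → ℝ → ℂ) (hρ0 : ∀ j, 0 ≤ ρ j) (hγ : ∀ j, γ j ∈ D.Γ)
    (hξ : ∀ j, D.AdmN N (ρ j) (ξ j)) (hρ : Tendsto ρ atTop (𝓝 r)) :
    ∃ φ : ℕ → ℕ, StrictMono φ ∧ ∃ γ0 ∈ D.Γ, ∃ ξ0, D.AdmN N r ξ0 ∧
      Tendsto (fun j => γ (φ j)) atTop (𝓝 γ0) ∧
      (∀ t, Tendsto (fun j => ξ (φ j) t) atTop (𝓝 (ξ0 t))) ∧
      Tendsto (fun j => Aop W D (muN N) (γ (φ j)) (ξ (φ j))) atTop
        (𝓝 (Aop W D (muN N) γ0 ξ0)) := by sorry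

end Pool.Agent.Helper84.HRT
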