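import Mathlib
import Pool.Agent.Helper84.HRT.DefsA

open MeasureTheory Complex Filter
open scoped ENNReal ComplexConjugate InnerProductSpace BigOperators Topology

namespace Pool.Agent.Helper84.HRT

variable {H : Type} [NormedAddCommGroup H] [InnerProductSpace ℂ H] [CompleteSpace H]

theorem rN_spec (W : Weyl H) (D : Data) {rb r1 g c C : ℝ} (hG : Good W D rb r1 g c C) (n : ℕ) :
    0 ≤ rN W D rb n ∧ rN W D rb n ≤ rb ∧
    (∀ r, 0 ≤ r → r < rN W D rb n → ∀ γ ∈ D.Γ, ∀ ξ, D.AdmN (D.NN n) r ξ →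
      BB (Aop W D (muN (D.NN n)) γ ξ)) ∧
    (rN W D rb n < rb → ∃ γ ∈ D.Γ, ∃ ξ, D.AdmN (D.NN n) (rN W D rb n) ξ ∧
      ∀ ε : ℝ, 0 < ε → ∃ f : H, ‖f‖ = 1 ∧ ‖Aop W D (muN (D.NN n)) γ ξ f‖ < ε) := by sorry

end Pool.Agent.Helper84.HRT
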