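import Mathlib
import Pool.Agent.Helper84.HRT.DefsA

open MeasureTheory Complex Filter
open scoped ENNReal ComplexConjugate InnerProductSpace BigOperators Topology

namespace Pool.Agent.Helper84.HRT

variable {H : Type} [NormedAddCommGroup H] [InnerProductSpace ℂ H] [CompleteSpace H]

/-- discretisation of a pattern -/
theorem discretise (W : Weyl H) (D : Data) (r : ℝ) (hr : 0 ≤ r) (ξ : ℝ → ℂ) (h : D.Adm r ξ) :
    ∃ ξN : ℕ → ℝ → ℂ, (∀ n, D.AdmN (D.NN n) r (ξN n)) ∧ ∀ f : H,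
      Tendsto (fun n => XL W (muN (D.NN n)) (ξN n) f) atTop (𝓝 (XL W mu8 ξ f)) := by sorry

end Pool.Agent.Helper84.HRT
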