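import Mathlib
import Pool.Agent.Helper84.HRT.DefsA

open MeasureTheory Complex Filter
open scoped ENNReal ComplexConjugate InnerProductSpace BigOperators Topology

namespace Pool.Agent.Helper84.HRT

variable {H : Type} [NormedAddCommGroup H] [InnerProductSpace ℂ H] [CompleteSpace H]

theorem rinf_spec (W : Weyl H) (D : Data) {rb r1 g c C : ℝ} (hG : Good W D rb r1 g c C) :
    0 < rinf W D ∧ rinf W D ≤ r1 ∧ ∀ r, 0 ≤ r → r < rinf W D → ∀ γ ∈ D.Γ, ∀ ξ, D.Adm r ξ →
      BB (Aop W D mu8 γ ξ) := by sorry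

end Pool.Agent.Helper84.HRT
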