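import Mathlib
import Pool.Agent.Helper84.HRT.DefsA

open MeasureTheory Complex Filter
open scoped ENNReal ComplexConjugate InnerProductSpace BigOperators Topology

namespace Pool.Agent.Helper84.HRT

variable {H : Type} [NormedAddCommGroup H] [InnerProductSpace ℂ H] [CompleteSpace H]

/-- L7 -/
theorem usc (W : Weyl H) (D : Data) {rb r1 g c C : ℝ} (hG : Good W D rb r1 g c C) (ε : ℝ)
    (hε : 0 < ε) : ∃ n0 : ℕ, ∀ n, n0 ≤ n → rN W D rb n ≤ rinf W D + ε := by sorry

end Pool.Agent.Helper84.HRT
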