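import Mathlib
import Pool.Agent.Helper84.HRT.DefsA

open MeasureTheory Complex Filter
open scoped ENNReal ComplexConjugate InnerProductSpace BigOperators Topology

namespace Pool.Agent.Helper84.HRT

variable {H : Type} [NormedAddCommGroup H] [InnerProductSpace ℂ H] [CompleteSpace H]

theorem L9 : ∃ C9 : ℝ, 0 < C9 ∧ ∀ (H : Type) [NormedAddCommGroup H]
    [InnerProductSpace ℂ H] [CompleteSpace H] (W : Weyl H) (R : ℝ), 1 ≤ R →
    ∀ (T : H →L[ℂ] H) (v : H) (s : ℂ → ℝ) (M0 : ℝ), Continuous s → (∀ z, 0 < s z) →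
    (∀ z, s z ≤ 1) → (∀ z w, s z ≤ (1 + ‖z - w‖) * s w) → 0 ≤ M0 → v ≠ 0 →
    S2 (fun z => (s z)⁻¹) (W.V (T v)) ≤ ENNReal.ofReal (M0 * ‖v‖ ^ 2) →
    ∃ E : Set ℂ, MeasurableSet E ∧
      (∀ w ∈ E, IsCen W R (C9 * Real.sqrt M0 * R * s w) (tr W w T) (W.U w v)) ∧
      mass W R v Eᶜ ≤ ENNReal.ofReal (1 / 100) * mass W R v Set.univ := by sorry

end Pool.Agent.Helper84.HRT
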