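import Mathlib
import Pool.Agent.Helper84.HRT.DefsA

open MeasureTheory Complex Filter
open scoped ENNReal ComplexConjugate InnerProductSpace BigOperators Topology

namespace Pool.Agent.Helper84.HRT

variable {H : Type} [NormedAddCommGroup H] [InnerProductSpace ℂ H] [CompleteSpace H]

theorem S2_om_shift (W : Weyl H) (R : ℝ) (v : H) (w : ℂ) :
    S2 (om R) (W.V (W.U w v)) = ∫⁻ z, ENNReal.ofReal (om R (z - w) ^ 2) * ‖W.V v z‖ₑ ^ 2 ∂dA := by
  sorry

theorem mass_univ (W : Weyl H) (R : ℝ) (hR : 1 ≤ R) (v : H) :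
    mass W R v Set.univ = ENNReal.ofReal (R ^ 2 / 21) * ENNReal.ofReal (‖v‖ ^ 2) := by sorry

end Pool.Agent.Helper84.HRT
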