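import Mathlib
import Pool.Agent.Helper84.HRT.DefsA

open MeasureTheory Complex Filter
open scoped ENNReal ComplexConjugate InnerProductSpace BigOperators Topology

namespace Pool.Agent.Helper84.HRT

variable {H : Type} [NormedAddCommGroup H] [InnerProductSpace ℂ H] [CompleteSpace H]

/-- the part of the mass far from the origin -/
theorem mass_far : ∃ C : ℝ, 0 < C ∧ ∀ (H : Type) [NormedAddCommGroup H]
    [InnerProductSpace ℂ H] [CompleteSpace H] (W : Weyl H) (R : ℝ), 1 ≤ R → ∀ (T : ℝ), R ≤ T →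
    ∀ v : H, mass W R v {w | T ≤ ‖w‖} ≤
      ENNReal.ofReal (R ^ 2 / 21) * (∫⁻ z in {z | T / 2 ≤ ‖z‖}, ‖W.V v z‖ₑ ^ 2 ∂dA) +
      ENNReal.ofReal (C * (R / T) ^ 6) * mass W R v Set.univ := by sorry

/-- if most of the mass of the centres is near the origin, so is most of the mass of `v` -/
theorem mass_near (R R0 : ℝ) (hR : 1 ≤ R) (hR0 : 0 ≤ R0) : ∃ R1 : ℝ, R0 ≤ R1 ∧
    ∀ (H : Type) [NormedAddCommGroup H] [InnerProductSpace ℂ H] [CompleteSpace H] (W : Weyl H)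
    (v : H), ENNReal.ofReal (9 / 10) * mass W R v Set.univ ≤ mass W R v {w | ‖w‖ ≤ R0} →
    ENNReal.ofReal (8 / 10 * ‖v‖ ^ 2) ≤ ∫⁻ z in {z | ‖z‖ ≤ R1}, ‖W.V v z‖ₑ ^ 2 ∂dA := by sorry

/-- the mass on bounded sets is small when the vector has little mass on bounded sets -/
theorem mass_ball (R : ℝ) (hR : 1 ≤ R) (T ε : ℝ) (hε : 0 < ε) : ∃ T' : ℝ, 0 < T' ∧
    ∀ (H : Type) [NormedAddCommGroup H] [InnerProductSpace ℂ H] [CompleteSpace H] (W : Weyl H)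
    (v : H), mass W R v {w | ‖w‖ ≤ T} ≤
      ENNReal.ofReal (R ^ 2 / 21) * (∫⁻ z in {z | ‖z‖ ≤ T'}, ‖W.V v z‖ₑ ^ 2 ∂dA) +
      ENNReal.ofReal ε * mass W R v Set.univ := by sorry

end Pool.Agent.Helper84.HRT
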