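import Mathlib
import Pool.Agent.Helper84.HRT.DefsA

open MeasureTheory Complex Filter
open scoped ENNReal ComplexConjugate InnerProductSpace BigOperators Topology

namespace Pool.Agent.Helper84.HRT

variable {H : Type} [NormedAddCommGroup H] [InnerProductSpace ℂ H] [CompleteSpace H]
variable {W : Weyl H} {D : Data}

/-- L11 -/
theorem LIM (F : Fam W D) (n : ℕ → ℕ) (hn : Tendsto n atTop atTop) (hn1 : ∀ j, F.n1 ≤ n j)
    (δ : ℕ → ℝ) (hδ0 : ∀ j, 0 ≤ δ j) (hδ : Tendsto δ atTop (𝓝 0)) (w : ℕ → ℂ) (g : ℕ → H)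
    (hc : ∀ j, F.Ctr (n j) (δ j) (w j) (g j)) (h1 : ∀ j, S2 (om F.R) (W.V (g j)) = 1) :
    ∃ φ : ℕ → ℕ, StrictMono φ ∧ ∃ γ ξ ψ, F.Lim (n ∘ φ) (w ∘ φ) (g ∘ φ) γ ξ ψ := by sorry

end Pool.Agent.Helper84.HRT
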