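import Mathlib
import Pool.Agent.Helper84.HRT.DefsS

open MeasureTheory Complex Filter
open scoped ENNReal NNReal ComplexConjugate InnerProductSpace BigOperators Topology

namespace Pool.Agent.Helper84.HRT

variable {H : Type} [NormedAddCommGroup H] [InnerProductSpace ℂ H] [CompleteSpace H]

/-! Weights of log-slope `B/(R2+|z|)` and the weight of L17. -/

theorem isW_of_log (B R2 : ℝ) (hB : 1 ≤ B) (hR : 4 * B ≤ R2) (φ : ℂ → ℝ)
    (h : ∀ z ζ, |φ z - φ ζ| ≤ B * ‖z - ζ‖ / (R2 + min ‖z‖ ‖ζ‖)) :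
    IsW (fun z => Real.exp (φ z)) (slo B R2) := by sorry

theorem isW_OmR (R2 R : ℝ) (hR2 : 1560 ≤ R2) (hR : 1 ≤ R) : IsW (OmR R2 R) (slo 390 R2) := by
  sorry

theorem isW_Omi (R2 : ℝ) (hR2 : 240 ≤ R2) : IsW (Omi R2) (slo 60 R2) := by sorry

/-- the slope function of `Omc d` is `min 1 (exp (|z|-d))` -/
theorem isW_Omc (d : ℝ) : IsW (Omc d) (fun z => min 1 (Real.exp (‖z‖ - d))) := by sorry

theorem slo_pos (B R2 : ℝ) (hB : 0 < B) (hR : 0 < R2) (z : ℂ) : 0 < slo B R2 z := by sorry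

theorem slo_le (B R2 : ℝ) (hB : 0 < B) (hR : 0 < R2) (z : ℂ) : slo B R2 z ≤ 2 * B / R2 := by sorry

theorem slo_doubling (B R2 : ℝ) (hB : 0 < B) (hR : 1 ≤ R2) (z w : ℂ) :
    slo B R2 z ≤ (1 + ‖z - w‖) * slo B R2 w := by sorry

theorem slo_cont (B R2 : ℝ) (hR : 0 < R2) : Continuous (slo B R2) := by sorry

end Pool.Agent.Helper84.HRT
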