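import Mathlib
import Pool.Agent.Helper84.HRT.DefsS

open MeasureTheory Complex Filter
open scoped ENNReal NNReal ComplexConjugate InnerProductSpace BigOperators Topology

namespace Pool.Agent.Helper84.HRT

variable {H : Type} [NormedAddCommGroup H] [InnerProductSpace ℂ H] [CompleteSpace H]

/-! Log-Lipschitz functions. -/

theorem logLip_one : LogLip (fun _ => 1) := by sorry

theorem logLip_slo_inv (B R2 : ℝ) (hB : 0 < B) (hR : 1 ≤ R2) :
    LogLip (fun z => (slo B R2 z)⁻¹) := by sorry

theorem logLip_in (T : ℝ) : LogLip (fun z => min 1 (Real.exp (‖z‖ - T))) := by sorry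

theorem logLip_out (T : ℝ) : LogLip (fun z => min 1 (Real.exp (T - ‖z‖))) := by sorry

theorem logLip_exp_neg : LogLip (fun z => Real.exp (-‖z‖)) := by sorry

/-- comparison of `pw k` with the log-Lipschitz weight `(1+|z|/(|k|+1))^k` -/
theorem exists_logLip_pw (k : ℤ) : ∃ (Y : ℂ → ℝ) (c : ℝ), 0 < c ∧ LogLip Y ∧
    ∀ z, Y z ≤ c * pw k z ∧ pw k z ≤ c * Y z := by sorry

end Pool.Agent.Helper84.HRT
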