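import Mathlib
import Pool.Agent.Helper84.HRT.DefsS

open MeasureTheory Complex Filter
open scoped ENNReal NNReal ComplexConjugate InnerProductSpace BigOperators Topology

namespace Pool.Agent.Helper84.HRT

variable {H : Type} [NormedAddCommGroup H] [InnerProductSpace ℂ H] [CompleteSpace H]

/-! Elementary rules for `S2`. -/

theorem S2_mono {Y Y' : ℂ → ℝ} {c : ℝ} (hc : 0 ≤ c) (F : ℂ → ℂ)
    (h : ∀ z, |Y z| ≤ c * |Y' z|) : S2 Y F ≤ ENNReal.ofReal (c ^ 2) * S2 Y' F := by sorry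

theorem S2_mono2 {Y Y' : ℂ → ℝ} {F G : ℂ → ℂ} (h : ∀ z, |Y z| * ‖F z‖ ≤ |Y' z| * ‖G z‖) :
    S2 Y F ≤ S2 Y' G := by sorry

theorem S2_add (Y : ℂ → ℝ) (hY : Measurable Y) (F G : ℂ → ℂ) (hF : AEStronglyMeasurable F dA) :
    S2 Y (fun z => F z + G z) ≤ 2 * (S2 Y F + S2 Y G) := by sorry

theorem S2_sub (Y : ℂ → ℝ) (hY : Measurable Y) (F G : ℂ → ℂ) (hF : AEStronglyMeasurable F dA) :
    S2 Y (fun z => F z - G z) ≤ 2 * (S2 Y F + S2 Y G) := by sorry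

theorem S2_smul (Y : ℂ → ℝ) (c : ℂ) (F : ℂ → ℂ) :
    S2 Y (fun z => c * F z) = ‖c‖ₑ ^ 2 * S2 Y F := by sorry

theorem S2_mul_weight (Y Om : ℂ → ℝ) (F : ℂ → ℂ) :
    S2 Y (fun z => ((Om z : ℝ) : ℂ) * F z) = S2 (fun z => Y z * Om z) F := by sorry

theorem S2_ball_eq (ρ : ℝ) (F : ℂ → ℂ) :
    S2 (ball1 ρ) F = ∫⁻ z in {z : ℂ | ‖z‖ ≤ ρ}, ‖F z‖ₑ ^ 2 ∂dA := by sorry

theorem S2_out_eq (ρ : ℝ) (F : ℂ → ℂ) :
    S2 (out1 ρ) F = ∫⁻ z in {z : ℂ | ρ ≤ ‖z‖}, ‖F z‖ₑ ^ 2 ∂dA := by sorry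

theorem ball1_meas (ρ : ℝ) : Measurable (ball1 ρ) := by sorry

theorem out1_meas (ρ : ℝ) : Measurable (out1 ρ) := by sorry

end Pool.Agent.Helper84.HRT
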