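import Mathlib
import Pool.Agent.Helper84.HRT.DefsS

open MeasureTheory Complex Filter
open scoped ENNReal NNReal ComplexConjugate InnerProductSpace BigOperators Topology

namespace Pool.Agent.Helper84.HRT

variable {H : Type} [NormedAddCommGroup H] [InnerProductSpace ℂ H] [CompleteSpace H]

/-! `Kop` on polynomial weights and cut offs (from `Kop_weighted` in YK, and SB). -/

theorem Kop_pw (k : ℤ) : ∃ C : ℝ, 0 < C ∧ ∀ F : ℂ → ℂ, AEStronglyMeasurable F dA →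
    S2 (pw k) (Kop F) ≤ ENNReal.ofReal C * S2 (pw k) F := by sorry

/-- `Kop_weighted` with `Y = min 1 (exp (|z|-T/2))` -/
theorem Kop_out : ∃ C : ℝ, 0 < C ∧ ∀ T : ℝ, 0 ≤ T → ∀ F : ℂ → ℂ, AEStronglyMeasurable F dA →
    S2 (out1 (T / 2)) (Kop F) ≤ ENNReal.ofReal C * (S2 (out1 (T / 4)) F +
      ENNReal.ofReal (Real.exp (-(T / 2))) * S2 (fun _ => 1) F) := by sorry

/-- `Kop_weighted` with `Y = min 1 (exp (T-|z|))` -/
theorem Kop_in : ∃ C : ℝ, 0 < C ∧ ∀ (T : ℝ) (F : ℂ → ℂ), AEStronglyMeasurable F dA →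
    S2 (ball1 T) (Kop F) ≤
      ENNReal.ofReal C * S2 (fun z => min 1 (Real.exp (T - ‖z‖))) F := by sorry

end Pool.Agent.Helper84.HRT
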