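import Mathlib
import Pool.Agent.Helper84.HRT.DefsS

open MeasureTheory Complex Filter
open scoped ENNReal NNReal ComplexConjugate InnerProductSpace BigOperators Topology

namespace Pool.Agent.Helper84.HRT

variable {H : Type} [NormedAddCommGroup H] [InnerProductSpace ℂ H] [CompleteSpace H]

/-! The weight `OmR` of L16. -/

theorem OmR_pos (R2 R : ℝ) (hR2 : 0 < R2) (hR : 0 ≤ R) (z : ℂ) : 0 < OmR R2 R z := by sorry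

theorem OmR_le (R2 R : ℝ) (hR2 : 0 < R2) (hR : 0 ≤ R) (z : ℂ) :
    OmR R2 R z ≤ (1 + ‖z‖ / R2) ^ 390 := by sorry

theorem OmR_bdd (R2 R : ℝ) (hR2 : 0 < R2) (hR : 0 ≤ R) (z : ℂ) :
    OmR R2 R z ≤ (1 + R / R2) ^ 390 := by sorry

/-- in the ball of radius `R`, `OmR` dominates `pw 390` -/
theorem pw_le_OmR (R2 : ℝ) (hR2 : 1 ≤ R2) (R : ℝ) (z : ℂ) :
    ball1 R z * pw 390 z ≤ R2 ^ 390 * OmR R2 R z := by sorry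

theorem OmR_tail (R2 Rc : ℝ) (hR2 : 1 ≤ R2) (hRc : 1 ≤ Rc) : ∃ C : ℝ, 0 < C ∧ ∀ R : ℝ, 1 ≤ R →
    ∀ z : ℂ, R ^ 4 ≤ 4 * ‖z‖ → OmR R2 R z ≤ C * om Rc z := by sorry

theorem OmR_sup (R2 Rc : ℝ) (hR2 : 1 ≤ R2) (hRc : 1 ≤ Rc) : ∃ C : ℝ, 0 < C ∧ ∀ R : ℝ, 1 ≤ R →
    ∀ z : ℂ, (slo 390 R2 z)⁻¹ * OmR R2 R z ≤ C * R ^ 395 * om Rc z := by sorry

theorem OmR_exp (R2 Rc : ℝ) (hR2 : 1 ≤ R2) (hRc : 1 ≤ Rc) : ∃ C : ℝ, 0 < C ∧ ∀ R : ℝ, 1 ≤ R →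
    ∀ z : ℂ, Real.exp (-‖z‖) * OmR R2 R z ≤ C * om Rc z := by sorry

end Pool.Agent.Helper84.HRT
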