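import Mathlib
import Pool.Agent.Helper84.HRT.DefsS

open MeasureTheory Complex Filter
open scoped ENNReal NNReal ComplexConjugate InnerProductSpace BigOperators Topology

namespace Pool.Agent.Helper84.HRT

variable {H : Type} [NormedAddCommGroup H] [InnerProductSpace ℂ H] [CompleteSpace H]

/-- L15 for `K = 600` in the form `Coarse`, for all small `δ0` -/
theorem coarse_mono {W : Weyl H} {D : Data} (F : Fam W D) (R0 δ1 δ0 : ℝ) (h0 : 0 ≤ δ0)
    (h01 : δ0 ≤ δ1) (h : F.Coarse R0 δ1) : F.Coarse R0 δ0 := by sorry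

/-- the end of the soft part: `L15` (K = 600), `L16`, `L17`, `L19`, `L20`, `L22`, `L23` -/
theorem soft_end {W : Weyl H} {D : Data} (F : Fam W D) : ∃ n : ℕ, F.n1 ≤ n ∧ ∃ γ ∈ D.Γ,
    ∃ ξ : ℝ → ℂ, D.AdmN (D.NN n) (F.rs n) ξ ∧
      ∃ u : H, u ≠ 0 ∧ Aop W D (muN (D.NN n)) γ ξ u = 0 := by sorry

end Pool.Agent.Helper84.HRT
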