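import Mathlib
import Pool.Agent.Helper84.HRT.DefsS

open MeasureTheory Complex Filter
open scoped ENNReal NNReal ComplexConjugate InnerProductSpace BigOperators Topology

namespace Pool.Agent.Helper84.HRT

variable {H : Type} [NormedAddCommGroup H] [InnerProductSpace ℂ H] [CompleteSpace H]

/-! The weight `Omi` of L19. -/

theorem Omi_pos (R2 : ℝ) (hR2 : 0 < R2) (z : ℂ) : 0 < Omi R2 z ∧ Omi R2 z ≤ 1 := by sorry

theorem pw_le_Omi (R2 : ℝ) (hR2 : 1 ≤ R2) (z : ℂ) : pw (-60) z ≤ Omi R2 z := by sorry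

theorem Omi_slo_le (R2 : ℝ) (hR2 : 1 ≤ R2) (z : ℂ) :
    (slo 60 R2 z)⁻¹ * Omi R2 z ≤ R2 ^ 60 * pw (-59) z := by sorry

theorem Omi_out (R2 T : ℝ) (hR2 : 0 < R2) (hT : 0 < T) (z : ℂ) (hz : T ≤ ‖z‖) :
    Omi R2 z ≤ (R2 / T) ^ 60 := by sorry

theorem Omi_near (R2 ρ : ℝ) (hρ : 0 < ρ) (hR2 : 60 * ρ ≤ R2) (z : ℂ) (hz : ‖z‖ ≤ ρ) :
    1 - 60 * ρ / R2 ≤ Omi R2 z ∧ Omi R2 z ≤ 1 := by sorry

end Pool.Agent.Helper84.HRT
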