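import Mathlib
import Pool.Agent.Helper84.HRT.DefsS

open MeasureTheory Complex Filter
open scoped ENNReal NNReal ComplexConjugate InnerProductSpace BigOperators Topology

namespace Pool.Agent.Helper84.HRT

variable {H : Type} [NormedAddCommGroup H] [InnerProductSpace ℂ H] [CompleteSpace H]

/-! Centres. -/

theorem S2_V_lt_top (W : Weyl H) (Om : ℂ → ℝ) (C : ℝ) (hOm : ∀ z, |Om z| ≤ C) (g : H) :
    S2 Om (W.V g) < ⊤ := by sorry

theorem S2_V_pos (W : Weyl H) (Om : ℂ → ℝ) (hOm : ∀ z, 0 < Om z) (hc : Continuous Om) (g : H)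
    (hg : g ≠ 0) : 0 < S2 Om (W.V g) := by sorry

theorem isCen_mono {W : Weyl H} {R δ δ' : ℝ} (h0 : 0 ≤ δ) (h : δ ≤ δ') {T : H →L[ℂ] H} {g : H}
    (hg : IsCen W R δ T g) : IsCen W R δ' T g := by sorry

theorem isCen_smul {W : Weyl H} {R δ : ℝ} {T : H →L[ℂ] H} {g : H} (c : ℂ) (hc : c ≠ 0)
    (hg : IsCen W R δ T g) : IsCen W R δ T (c • g) := by sorry

theorem ctr_mono {W : Weyl H} {D : Data} {F : Fam W D} {n : ℕ} {δ δ' : ℝ} (h0 : 0 ≤ δ)
    (h : δ ≤ δ') {w : ℂ} {g : H} (hg : F.Ctr n δ w g) : F.Ctr n δ' w g := by sorry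

/-- normalisation of the vector of a centre -/
theorem ctr_normalise {W : Weyl H} {D : Data} {F : Fam W D} {n : ℕ} {δ : ℝ} {w : ℂ} {g : H}
    (hg : F.Ctr n δ w g) : ∃ g' : H, F.Ctr n δ w g' ∧ S2 (om F.R) (W.V g') = 1 := by sorry

/-- centres of the translated operator (`tr_tr`) -/
theorem ctr_iff {W : Weyl H} {D : Data} (F : Fam W D) (n : ℕ) (δ : ℝ) (w w' : ℂ) (g : H) :
    F.Ctr n δ (w + w') g ↔ IsCen W F.R δ (tr W w' (tr W w (F.A n))) g := by sorry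

theorem sepR_mono {W : Weyl H} {D : Data} (F : Fam W D) {R0 δ0 : ℝ} {n : ℕ} {e1 e2 : ℝ}
    (h : F.SepR R0 δ0 n e1) (h12 : e1 ≤ e2) : F.SepR R0 δ0 n e2 := by sorry

end Pool.Agent.Helper84.HRT
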