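import Mathlib
import Pool.Agent.Helper84.HRT.DefsS

open MeasureTheory Complex Filter
open scoped ENNReal NNReal ComplexConjugate InnerProductSpace BigOperators Topology

namespace Pool.Agent.Helper84.HRT

variable {H : Type} [NormedAddCommGroup H] [InnerProductSpace ℂ H] [CompleteSpace H]

/-! The translates of the touching operators are pattern operators (XB, XC, XD). -/

theorem AdmN_per {D : Data} {N : ℕ} {r : ℝ} {ξ : ℝ → ℂ} (h : D.AdmN N r ξ) (t : ℝ) :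
    ξ (t + 1) = ξ t := by sorry

theorem trA_eq {W : Weyl H} {D : Data} (F : Fam W D) {n : ℕ} (hn : F.n1 ≤ n) (w : ℂ) :
    tr W w (F.A n) =
      Aop W D (muN (D.NN n)) (D.tw w (F.γs n)) (twN (D.NN n) w (F.ξs n)) := by sorry

theorem trA_mem {W : Weyl H} {D : Data} (F : Fam W D) {n : ℕ} (hn : F.n1 ≤ n) (w : ℂ) :
    D.tw w (F.γs n) ∈ D.Γ ∧ D.AdmN (D.NN n) (F.rs n) (twN (D.NN n) w (F.ξs n)) := by sorry

theorem norm_trA_le {W : Weyl H} {D : Data} (F : Fam W D) {n : ℕ} (hn : F.n1 ≤ n) (w : ℂ)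
    (f : H) : ‖tr W w (F.A n) f‖ ≤ 2 * F.C0 * ‖f‖ := by sorry

/-- difference of two translates of a touching operator (`D.τ i` is a node, `NN_node`) -/
theorem tr_sub_le {W : Weyl H} {D : Data} (F : Fam W D) (n : ℕ) (hn : F.n1 ≤ n) (w v : ℂ) (Φ : ℝ)
    (h : ∀ k : ℤ, ‖chi (w - v) (node ((k : ℝ) / D.NN n)) - 1‖ ≤ Φ) (f : H) :
    ‖tr W w (F.A n) f - tr W v (F.A n) f‖ ≤ 2 * F.C0 * Φ * ‖f‖ := by sorry

end Pool.Agent.Helper84.HRT
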