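import Mathlib
import Pool.Agent.Helper84.HRT.DefsS

open MeasureTheory Complex Filter
open scoped ENNReal NNReal ComplexConjugate InnerProductSpace BigOperators Topology

namespace Pool.Agent.Helper84.HRT

variable {H : Type} [NormedAddCommGroup H] [InnerProductSpace ℂ H] [CompleteSpace H]

/-! L1 for the cut off vectors `TO W Om g` (from L1A, L1H, VS, SH). -/

theorem V_TO (W : Weyl H) (Om s : ℂ → ℝ) (hOm : IsW Om s) (g : H) (hg : S2 Om (W.V g) < ⊤)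
    (z : ℂ) : W.V (TO W Om g) z = Kop (fun z => ((Om z : ℝ) : ℂ) * W.V g z) z := by sorry

/-- L1(b) for the translates of the touching operators -/
theorem TO_op {W : Weyl H} {D : Data} (F : Fam W D) : ∃ C : ℝ, 1 ≤ C ∧ ∀ n, F.n1 ≤ n →
    ∀ (w : ℂ) (Om s Y : ℂ → ℝ), IsW Om s → LogLip Y → ∀ g : H, S2 Om (W.V g) < ⊤ →
    S2 Y (W.V (tr W w (F.A n) (TO W Om g))) ≤ ENNReal.ofReal C *
      (S2 (fun z => Y z * Om z) (W.V (tr W w (F.A n) g)) +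
        S2 (fun z => Y z * s z * Om z) (W.V g)) := by sorry

/-- L1, first part -/
theorem TO_err (W : Weyl H) : ∃ C : ℝ, 1 ≤ C ∧ ∀ (Om s Y : ℂ → ℝ), IsW Om s → LogLip Y →
    ∀ g : H, S2 Om (W.V g) < ⊤ →
    S2 Y (fun z => ((Om z : ℝ) : ℂ) * W.V g z - W.V (TO W Om g) z) ≤
      ENNReal.ofReal C * S2 (fun z => Y z * s z * Om z) (W.V g) := by sorry

/-- L1(a) -/
theorem TO_norm (W : Weyl H) : ∃ c1 : ℝ, 0 < c1 ∧ ∀ (Om s : ℂ → ℝ), IsW Om s → (∀ z, s z ≤ c1) →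
    ∀ g : H, S2 Om (W.V g) < ⊤ → S2 Om (W.V g) ≤ 4 * ‖TO W Om g‖ₑ ^ 2 := by sorry

end Pool.Agent.Helper84.HRT
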