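import Mathlib
import Pool.Agent.Helper84.HRT.DefsS

open MeasureTheory Complex Filter
open scoped ENNReal NNReal ComplexConjugate InnerProductSpace BigOperators Topology

namespace Pool.Agent.Helper84.HRT

variable {H : Type} [NormedAddCommGroup H] [InnerProductSpace ℂ H] [CompleteSpace H]

/-! Convergence of patterns. -/

/-- convergence of the patterns implies convergence of the operators, pointwise on the V side
(`trA_eq`, `V_Aop`, `actN_tendsto`; strong convergence of the coefficients implies weak-*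
convergence by Cauchy-Schwarz for bounded `h`, then density, the coefficients are bounded by
`F.C0`) -/
theorem lim_apply {W : Weyl H} {D : Data} (F : Fam W D) (n : ℕ → ℕ) (w : ℕ → ℂ)
    (hn : Tendsto n atTop atTop) (hn1 : ∀ j, F.n1 ≤ n j) (γ : Fin D.m → ℂ) (ξ : ℝ → ℂ)
    (hξ : D.Adm F.r ξ)
    (hb : Tendsto (fun j => D.tw (w j) (F.γs (n j))) atTop (nhds γ))
    (hc : Tendsto (fun j => ∫⁻ t in Set.Ico (0 : ℝ) 1,
      ‖twN (D.NN (n j)) (w j) (F.ξs (n j)) t - ξ t‖ₑ ^ 2) atTop (nhds 0))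
    (f : ℕ → H) (f0 : H)
    (hl : TendstoLocallyUniformly (fun j => W.V (f j)) (W.V f0) atTop) (z : ℂ) :
    Tendsto (fun j => W.V (tr W (w j) (F.A (n j)) (f j)) z) atTop
      (nhds (W.V (Aop W D mu8 γ ξ f0) z)) := by sorry

theorem lim_comp {W : Weyl H} {D : Data} {F : Fam W D} {n : ℕ → ℕ} {w : ℕ → ℂ} {g : ℕ → H}
    {γ : Fin D.m → ℂ} {ξ : ℝ → ℂ} {ψ : H} (h : F.Lim n w g γ ξ ψ) (φ : ℕ → ℕ)
    (hφ : StrictMono φ) : F.Lim (n ∘ φ) (w ∘ φ) (g ∘ φ) γ ξ ψ := by sorry

end Pool.Agent.Helper84.HRT
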