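import Mathlib
import Pool.Agent.Helper84.HRT.DefsS

open MeasureTheory Complex Filter
open scoped ENNReal NNReal ComplexConjugate InnerProductSpace BigOperators Topology

namespace Pool.Agent.Helper84.HRT

variable {H : Type} [NormedAddCommGroup H] [InnerProductSpace ℂ H] [CompleteSpace H]

/-! Weighted Lipschitz bound, moments, duality, interpolation. -/

/-- from L2a with the log-Lipschitz weight of `exists_logLip_pw 60` -/
theorem L2w (W : Weyl H) : ∃ C : ℝ, 0 < C ∧ ∀ (α β : ℂ), ‖α‖ = 1 → ‖β‖ = 1 → ∀ f : H,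
    S2 (pw 60) (W.V (W.U α f - W.U β f)) ≤
      ENNReal.ofReal (C * ‖α - β‖ ^ 2) * S2 (pw 61) (W.V f) := by sorry

/-- moments of translated vectors -/
theorem S2_pw_U (W : Weyl H) (k : ℤ) (α : ℂ) (f : H) :
    S2 (pw k) (W.V (W.U α f)) ≤ ENNReal.ofReal ((1 + ‖α‖) ^ (2 * k.natAbs)) *
      S2 (pw k) (W.V f) := by sorry

/-- duality of the weights (`inner_eq`, Cauchy-Schwarz) -/
theorem inner_pw (W : Weyl H) (k : ℤ) (f h : H) :
    ‖(inner ℂ f h : ℂ)‖ₑ ^ 2 ≤ S2 (pw k) (W.V f) * S2 (pw (-k)) (W.V h) := by sorry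

/-- interpolation (Hölder with exponents 6/5 and 6; `(-120)(5/6) + 600/6 = 0`) -/
theorem interp (W : Weyl H) (h : H) :
    (‖h‖ₑ ^ 2) ^ 6 ≤ S2 (pw (-60)) (W.V h) ^ 5 * S2 (pw 300) (W.V h) := by sorry

end Pool.Agent.Helper84.HRT
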