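import Mathlib
import Pool.Agent.Helper84.HRT.DefsA

open MeasureTheory Complex Filter
open scoped ENNReal ComplexConjugate InnerProductSpace BigOperators Topology

namespace Pool.Agent.Helper84.HRT

variable {H : Type} [NormedAddCommGroup H] [InnerProductSpace ℂ H] [CompleteSpace H]

theorem Vs_spec (W : Weyl H) (F : ℂ → ℂ) (hF : AEStronglyMeasurable F dA)
    (hfin : S2 (fun _ => 1) F < ⊤) (h : H) :
    inner ℂ h (W.Vs F) = ∫ z, conj (W.V h z) * F z ∂dA := by sorry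

theorem V_Vs (W : Weyl H) (F : ℂ → ℂ) (hF : AEStronglyMeasurable F dA)
    (hfin : S2 (fun _ => 1) F < ⊤) (z : ℂ) : W.V (W.Vs F) z = Kop F z := by sorry

theorem norm_Vs (W : Weyl H) (F : ℂ → ℂ) (hF : AEStronglyMeasurable F dA)
    (hfin : S2 (fun _ => 1) F < ⊤) : ENNReal.ofReal (‖W.Vs F‖ ^ 2) ≤ S2 (fun _ => 1) F := by sorry

theorem Vs_V (W : Weyl H) (f : H) : W.Vs (W.V f) = f := by sorry

theorem exists_of_rep (W : Weyl H) (G : ℂ → ℂ) (hG : Rep G) (hfin : S2 (fun _ => 1) G < ⊤) :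
    ∃ v : H, W.V v = G := by sorry

theorem S2_one_Kop (W : Weyl H) (F : ℂ → ℂ) (hF : AEStronglyMeasurable F dA) :
    S2 (fun _ => 1) (Kop F) ≤ S2 (fun _ => 1) F := by sorry

end Pool.Agent.Helper84.HRT
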