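import Mathlib
import Pool.Agent.Helper84.HRT.DefsA

open MeasureTheory Complex Filter
open scoped ENNReal ComplexConjugate InnerProductSpace BigOperators Topology

namespace Pool.Agent.Helper84.HRT

variable {H : Type} [NormedAddCommGroup H] [InnerProductSpace ℂ H] [CompleteSpace H]

theorem node_norm (t : ℝ) : ‖node t‖ = 1 := by sorry

theorem node_add_half (t : ℝ) : node (t + 1 / 2) = -node t := by sorry

theorem node_add_one (t : ℝ) : node (t + 1) = node t := by sorry

theorem node_add (s t : ℝ) : node (s + t) = node s * node t := by sorry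

theorem node_lip (s t : ℝ) : ‖node s - node t‖ ≤ 2 * Real.pi * |s - t| := by sorry

theorem node_cont : Continuous node := by sorry

theorem node_coset_sum (p : ℕ) (hp : 2 ≤ p) (t : ℝ) :
    ∑ i ∈ Finset.range p, node (t + i / p) = 0 := by sorry

theorem coc_norm (α β : ℂ) : ‖coc α β‖ = 1 := by sorry

theorem chi_norm (w α : ℂ) : ‖chi w α‖ = 1 := by sorry

theorem chi_zero_left (α : ℂ) : chi 0 α = 1 := by sorry

theorem chi_zero_right (w : ℂ) : chi w 0 = 1 := by sorry

theorem chi_add_right (w α β : ℂ) : chi w (α + β) = chi w α * chi w β := by sorry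

theorem chi_add_left (w w' α : ℂ) : chi (w + w') α = chi w α * chi w' α := by sorry

theorem chi_neg_right (w α : ℂ) : chi w (-α) = conj (chi w α) := by sorry

theorem chi_neg_left (w α : ℂ) : chi (-w) α = conj (chi w α) := by sorry

theorem chi_cont : Continuous fun p : ℂ × ℂ => chi p.1 p.2 := by sorry

theorem chi_lip (w w' α : ℂ) : ‖chi w α - chi w' α‖ ≤ 2 * ‖w - w'‖ * ‖α‖ := by sorry

theorem chi_lip_right (w α β : ℂ) : ‖chi w α - chi w β‖ ≤ 2 * ‖w‖ * ‖α - β‖ := by sorry

theorem chi_node_coset (w : ℂ) (p : ℕ) (hp : 2 ≤ p) (t : ℝ) :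
    ∏ i ∈ Finset.range p, chi w (node (t + i / p)) = 1 := by sorry

theorem chi_node_half (w : ℂ) (t : ℝ) : chi w (node (t + 1 / 2)) = conj (chi w (node t)) := by sorry

end Pool.Agent.Helper84.HRT
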