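import Mathlib
import Pool.Agent.Helper84.HRT.DefsA

open MeasureTheory Complex Filter
open scoped ENNReal ComplexConjugate InnerProductSpace BigOperators Topology

namespace Pool.Agent.Helper84.HRT

variable {H : Type} [NormedAddCommGroup H] [InnerProductSpace ℂ H] [CompleteSpace H]

theorem U_neg_U (W : Weyl H) (α : ℂ) (f : H) : W.U (-α) (W.U α f) = f := by sorry

theorem U_U_neg (W : Weyl H) (α : ℂ) (f : H) : W.U α (W.U (-α) f) = f := by sorry

theorem U_adj (W : Weyl H) (α : ℂ) (f h : H) :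
    inner ℂ (W.U α f) h = inner ℂ f (W.U (-α) h) := by sorry

theorem U_inner_U (W : Weyl H) (α : ℂ) (f h : H) :
    inner ℂ (W.U α f) (W.U α h) = inner ℂ f h := by sorry

theorem g0_norm (W : Weyl H) : ‖W.g0‖ = 1 := by sorry

theorem tr_U (W : Weyl H) (w α : ℂ) : tr W w (W.U α) = conj (chi w α) • W.U α := by sorry

theorem tr_tr (W : Weyl H) (w w' : ℂ) (T : H →L[ℂ] H) :
    tr W w' (tr W w T) = tr W (w + w') T := by sorry

theorem tr_zero (W : Weyl H) (T : H →L[ℂ] H) : tr W 0 T = T := by sorry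

theorem tr_apply_U (W : Weyl H) (w : ℂ) (T : H →L[ℂ] H) (f : H) :
    tr W w T (W.U w f) = W.U w (T f) := by sorry

theorem tr_add (W : Weyl H) (w : ℂ) (S T : H →L[ℂ] H) :
    tr W w (S + T) = tr W w S + tr W w T := by sorry

theorem norm_tr (W : Weyl H) (w : ℂ) (T : H →L[ℂ] H) (f : H) :
    ‖tr W w T f‖ = ‖T (W.U (-w) f)‖ := by sorry

theorem V_U (W : Weyl H) (α : ℂ) (f : H) (z : ℂ) : W.V (W.U α f) z = act α (W.V f) z := by sorry

theorem norm_V_U (W : Weyl H) (α : ℂ) (f : H) (z : ℂ) :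
    ‖W.V (W.U α f) z‖ = ‖W.V f (z + α)‖ := by sorry

theorem V_add (W : Weyl H) (f h : H) (z : ℂ) : W.V (f + h) z = W.V f z + W.V h z := by sorry

theorem V_sub (W : Weyl H) (f h : H) (z : ℂ) : W.V (f - h) z = W.V f z - W.V h z := by sorry

theorem V_smul (W : Weyl H) (a : ℂ) (f : H) (z : ℂ) : W.V (a • f) z = a * W.V f z := by sorry

theorem norm_V_le (W : Weyl H) (f : H) (z : ℂ) : ‖W.V f z‖ ≤ ‖f‖ := by sorry

theorem V_cont (W : Weyl H) (f : H) : Continuous (W.V f) := by sorry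

end Pool.Agent.Helper84.HRT
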