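import Mathlib
import Pool.Agent.Helper84.HRT.DefsA

open MeasureTheory Complex Filter
open scoped ENNReal ComplexConjugate InnerProductSpace BigOperators Topology

namespace Pool.Agent.Helper84.HRT

variable {H : Type} [NormedAddCommGroup H] [InnerProductSpace ℂ H] [CompleteSpace H]

theorem cell_le {N : ℕ} (hN : 0 < N) (t : ℝ) : cell N t ≤ t := by sorry

theorem lt_cell_add {N : ℕ} (hN : 0 < N) (t : ℝ) : t < cell N t + 1 / N := by sorry

theorem cell_cell {N : ℕ} (hN : 0 < N) (t : ℝ) : cell N (cell N t) = cell N t := by sorry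

theorem cell_add {N p : ℕ} (hN : 0 < N) (hp : 0 < p) (h : p ∣ N) (i : ℤ) (t : ℝ) :
    cell N (t + i / p) = cell N t + i / p := by sorry

theorem cell_grid {N : ℕ} (hN : 0 < N) (k : ℤ) : cell N ((k : ℝ) / N) = (k : ℝ) / N := by sorry

theorem cell_meas (N : ℕ) : Measurable (cell N) := by sorry

theorem step_meas {E : Type} [TopologicalSpace E] [MeasurableSpace E] {N : ℕ} (h : ℝ → E)
    (hs : ∀ t, h (cell N t) = h t) : Measurable h := by sorry

end Pool.Agent.Helper84.HRT
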