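import Mathlib
import Pool.Agent.Helper84.HRT.DefsA

open MeasureTheory Complex Filter
open scoped ENNReal ComplexConjugate InnerProductSpace BigOperators Topology

namespace Pool.Agent.Helper84.HRT

variable {H : Type} [NormedAddCommGroup H] [InnerProductSpace ℂ H] [CompleteSpace H]

theorem S2_V (W : Weyl H) (f : H) : S2 (fun _ => 1) (W.V f) = ENNReal.ofReal (‖f‖ ^ 2) := by sorry

theorem V_memLp (W : Weyl H) (f : H) : MemLp (W.V f) 2 dA := by sorry

theorem inner_eq (W : Weyl H) (f h : H) :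
    inner ℂ f h = ∫ z, conj (W.V f z) * W.V h z ∂dA := by sorry

theorem V_inj (W : Weyl H) (f : H) (h : ∀ z, W.V f z = 0) : f = 0 := by sorry

theorem Kk_eq (W : Weyl H) (z ζ : ℂ) :
    Kk z ζ = inner ℂ (W.U (-z) W.g0) (W.U (-ζ) W.g0) := by sorry

theorem rep_V (W : Weyl H) (f : H) : Rep (W.V f) := by sorry

end Pool.Agent.Helper84.HRT
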