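import Mathlib
import Pool.Agent.Helper84.HRT.DefsA

open MeasureTheory Complex Filter
open scoped ENNReal ComplexConjugate InnerProductSpace BigOperators Topology

namespace Pool.Agent.Helper84.HRT

variable {H : Type} [NormedAddCommGroup H] [InnerProductSpace ℂ H] [CompleteSpace H]

/-- weak-* compactness of admissible coefficient functions -/
theorem weakstar (D : Data) (ξ : ℕ → ℝ → ℂ) (ρ : ℕ → ℝ) (r : ℝ) (hρ0 : ∀ j, 0 ≤ ρ j)
    (hξ : ∀ j, D.Adm (ρ j) (ξ j)) (hρ : Tendsto ρ atTop (𝓝 r)) :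
    ∃ φ : ℕ → ℕ, StrictMono φ ∧ ∃ ξ0 : ℝ → ℂ, D.Adm r ξ0 ∧ ∀ h : ℝ → ℂ, Integrable h mu8 →
      Tendsto (fun j => ∫ t, h t * ξ (φ j) t ∂mu8) atTop (𝓝 (∫ t, h t * ξ0 t ∂mu8)) := by sorry

end Pool.Agent.Helper84.HRT
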