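import Mathlib
import Pool.Agent.Helper84.HRT.DefsA

open MeasureTheory Complex Filter
open scoped ENNReal ComplexConjugate InnerProductSpace BigOperators Topology

namespace Pool.Agent.Helper84.HRT

variable {H : Type} [NormedAddCommGroup H] [InnerProductSpace ℂ H] [CompleteSpace H]

/-- weak convergence plus convergence of the radii to full modulus gives strong convergence -/
theorem strong_of_weak (D : Data) (ξ : ℕ → ℝ → ℂ) (ρ : ℕ → ℝ) (r : ℝ) (ξ0 : ℝ → ℂ)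
    (hρ0 : ∀ j, 0 ≤ ρ j) (hξ : ∀ j, D.Adm (ρ j) (ξ j)) (hρ : Tendsto ρ atTop (𝓝 r))
    (hw : ∀ h : ℝ → ℂ, Integrable h mu8 →
      Tendsto (fun j => ∫ t, h t * ξ j t ∂mu8) atTop (𝓝 (∫ t, h t * ξ0 t ∂mu8)))
    (h0 : D.Adm r ξ0) (hfull : ∀ᵐ t : ℝ, ‖ξ0 t‖ = r * D.κ t) :
    Tendsto (fun j => ∫⁻ t in Set.Ico (0 : ℝ) 1, ‖ξ j t - ξ0 t‖ₑ ^ 2) atTop (𝓝 0) := by sorry

end Pool.Agent.Helper84.HRT
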