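import Mathlib
import Pool.Agent.Helper84.HRT.DefsA

open MeasureTheory Complex Filter
open scoped ENNReal ComplexConjugate InnerProductSpace BigOperators Topology

namespace Pool.Agent.Helper84.HRT

variable {H : Type} [NormedAddCommGroup H] [InnerProductSpace ℂ H] [CompleteSpace H]

theorem muN_prob {N : ℕ} (hN : 0 < N) : IsProbabilityMeasure (muN N) := by sorry

instance mu8_prob : IsProbabilityMeasure mu8 := by sorry

instance muN_fin (N : ℕ) : IsFiniteMeasure (muN N) := by sorry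

theorem muN_integral {E : Type} [NormedAddCommGroup E] [NormedSpace ℂ E] [CompleteSpace E]
    {N : ℕ} (hN : 0 < N) (h : ℝ → E) :
    ∫ t, h t ∂(muN N) = ((1 : ℂ) / N) • ∑ k ∈ Finset.range N, h ((k : ℝ) / N) := by sorry

theorem muN_ae {N : ℕ} (hN : 0 < N) (P : ℝ → Prop) :
    (∀ᵐ t ∂(muN N), P t) ↔ ∀ k < N, P ((k : ℝ) / N) := by sorry

/-- The average of a step function does not depend on the measure. -/
theorem integral_step {E : Type} [NormedAddCommGroup E] [NormedSpace ℂ E] [CompleteSpace E]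
    {N : ℕ} (hN : 0 < N) (h : ℝ → E) (hs : ∀ t, h (cell N t) = h t) :
    ∫ t, h t ∂(muN N) = ∫ t, h t ∂mu8 := by sorry

/-- Periodic functions: shifts do not change the integral over a period. -/
theorem mu8_shift {E : Type} [NormedAddCommGroup E] [NormedSpace ℝ E] (h : ℝ → E)
    (hp : ∀ᵐ t : ℝ, h (t + 1) = h t) (a : ℝ) : ∫ t, h (t + a) ∂mu8 = ∫ t, h t ∂mu8 := by sorry

theorem muN_shift {E : Type} [NormedAddCommGroup E] [NormedSpace ℂ E] [CompleteSpace E]
    {N : ℕ} (hN : 0 < N) (h : ℝ → E) (hp : ∀ t, h (t + 1) = h t) (j : ℤ) :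
    ∫ t, h (t + j / N) ∂(muN N) = ∫ t, h t ∂(muN N) := by sorry

end Pool.Agent.Helper84.HRT
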