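import Mathlib
import Pool.Agent.Helper84.HRT.DefsA

open MeasureTheory Complex Filter
open scoped ENNReal ComplexConjugate InnerProductSpace BigOperators Topology

namespace Pool.Agent.Helper84.HRT

variable {H : Type} [NormedAddCommGroup H] [InnerProductSpace ℂ H] [CompleteSpace H]
variable (W : Weyl H)

theorem XL_apply {μ : Measure ℝ} [IsFiniteMeasure μ] {M : ℝ} {ξ : ℝ → ℂ} (h : Bd μ M ξ) (f : H) :
    XL W μ ξ f = ∫ t, ξ t • W.U (node t) f ∂μ := by sorry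

theorem XL_integrable {μ : Measure ℝ} [IsFiniteMeasure μ] {M : ℝ} {ξ : ℝ → ℂ} (h : Bd μ M ξ)
    (f : H) : Integrable (fun t => ξ t • W.U (node t) f) μ := by sorry

theorem norm_XL_le {μ : Measure ℝ} [IsProbabilityMeasure μ] {M : ℝ} {ξ : ℝ → ℂ} (hM : 0 ≤ M)
    (h : Bd μ M ξ) : ‖XL W μ ξ‖ ≤ M := by sorry

theorem XL_congr {μ : Measure ℝ} {ξ η : ℝ → ℂ} (h : ξ =ᵐ[μ] η) : XL W μ ξ = XL W μ η := by sorry

theorem XL_add {μ : Measure ℝ} [IsFiniteMeasure μ] {M M' : ℝ} {ξ η : ℝ → ℂ} (h : Bd μ M ξ)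
    (h' : Bd μ M' η) : XL W μ (fun t => ξ t + η t) = XL W μ ξ + XL W μ η := by sorry

theorem XL_sub {μ : Measure ℝ} [IsFiniteMeasure μ] {M M' : ℝ} {ξ η : ℝ → ℂ} (h : Bd μ M ξ)
    (h' : Bd μ M' η) : XL W μ (fun t => ξ t - η t) = XL W μ ξ - XL W μ η := by sorry

theorem XL_smul {μ : Measure ℝ} [IsFiniteMeasure μ] {M : ℝ} {ξ : ℝ → ℂ} (h : Bd μ M ξ) (a : ℂ) :
    XL W μ (fun t => a * ξ t) = a • XL W μ ξ := by sorry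

theorem XL_muN {N : ℕ} (hN : 0 < N) {ξ : ℝ → ℂ} (hξ : Measurable ξ) (f : H) :
    XL W (muN N) ξ f =
      ((1 : ℂ) / N) • ∑ k ∈ Finset.range N, ξ ((k : ℝ) / N) • W.U (node ((k : ℝ) / N)) f := by sorry

/-- difference bound: L¹ norm of the coefficients -/
theorem norm_XL_L1 {μ : Measure ℝ} [IsFiniteMeasure μ] {M : ℝ} {ξ : ℝ → ℂ} (h : Bd μ M ξ) (f : H) :
    ‖XL W μ ξ f‖ ≤ (∫ t, ‖ξ t‖ ∂μ) * ‖f‖ := by sorry

theorem inner_XL {μ : Measure ℝ} [IsFiniteMeasure μ] {M : ℝ} {ξ : ℝ → ℂ} (h : Bd μ M ξ)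
    (f f' : H) : inner ℂ f' (XL W μ ξ f) = ∫ t, ξ t * inner ℂ f' (W.U (node t) f) ∂μ := by sorry

theorem V_XL {μ : Measure ℝ} [IsFiniteMeasure μ] {M : ℝ} {ξ : ℝ → ℂ} (h : Bd μ M ξ) (f : H)
    (z : ℂ) : W.V (XL W μ ξ f) z = actX μ ξ (W.V f) z := by sorry

theorem V_Bop (D : Data) (γ : Fin D.m → ℂ) (f : H) (z : ℂ) :
    W.V (Bop W D γ f) z = actB D γ (W.V f) z := by sorry

theorem V_Aop {μ : Measure ℝ} [IsFiniteMeasure μ] {M : ℝ} {ξ : ℝ → ℂ} (h : Bd μ M ξ) (D : Data)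
    (γ : Fin D.m → ℂ) (f : H) (z : ℂ) :
    W.V (Aop W D μ γ ξ f) z = actA D μ γ ξ (W.V f) z := by sorry

theorem norm_Bop_le (D : Data) {γ : Fin D.m → ℂ} (hγ : ∀ i, ‖γ i‖ ≤ 1) :
    ‖Bop W D γ‖ ≤ ∑ i, ‖D.β i‖ := by sorry

theorem norm_Bop_sub (D : Data) (γ γ' : Fin D.m → ℂ) :
    ‖Bop W D γ - Bop W D γ'‖ ≤ ∑ i, ‖D.β i‖ * ‖γ i - γ' i‖ := by sorry

end Pool.Agent.Helper84.HRT
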