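import Mathlib
import Pool.Agent.Helper84.HRT.DefsA

open MeasureTheory Complex Filter
open scoped ENNReal ComplexConjugate InnerProductSpace BigOperators Topology

namespace Pool.Agent.Helper84.HRT

variable {H : Type} [NormedAddCommGroup H] [InnerProductSpace ℂ H] [CompleteSpace H]

theorem kN_le (D : Data) {N : ℕ} (hN : 0 < N) (t : ℝ) : D.κN N t ≤ D.κ t := by sorry

theorem kN_nonneg (D : Data) {N : ℕ} (hN : 0 < N) (t : ℝ) : 0 ≤ D.κN N t := by sorry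

theorem kN_step (D : Data) {N : ℕ} (hN : 0 < N) (t : ℝ) : D.κN N (cell N t) = D.κN N t := by sorry

theorem kN_half (D : Data) {N : ℕ} (hN : 0 < N) (h2 : 2 ∣ N) (t : ℝ) :
    D.κN N (t + 1 / 2) = D.κN N t := by sorry

/-- κ_N → κ at good points, along every sequence N → ∞. -/
theorem kN_tendsto (D : Data) (t : ℝ) (ht : t ∉ D.κbad) :
    Tendsto (fun N : ℕ => D.κN N t) atTop (𝓝 (D.κ t)) := by sorry

theorem bad_null (D : Data) : ∀ᵐ t : ℝ, t ∉ D.κbad := by sorry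

theorem AdmN.adm {D : Data} {N : ℕ} {r : ℝ} {ξ : ℝ → ℂ} (hN : 0 < N) (h : D.AdmN N r ξ)
    (hr : 0 ≤ r) : D.Adm r ξ := by sorry

theorem AdmN.bdN {D : Data} {N : ℕ} {r : ℝ} {ξ : ℝ → ℂ} (hN : 0 < N) (h : D.AdmN N r ξ)
    (hr : 0 ≤ r) : Bd (muN N) r ξ := by sorry

theorem AdmN.norm_le {D : Data} {N : ℕ} {r : ℝ} {ξ : ℝ → ℂ} (hN : 0 < N) (h : D.AdmN N r ξ)
    (hr : 0 ≤ r) (t : ℝ) : ‖ξ t‖ ≤ r := by sorry

theorem Adm.bd8 {D : Data} {r : ℝ} {ξ : ℝ → ℂ} (h : D.Adm r ξ) (hr : 0 ≤ r) : Bd mu8 r ξ := by sorry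

theorem Adm.twx {D : Data} {r : ℝ} {ξ : ℝ → ℂ} (h : D.Adm r ξ) (w : ℂ) :
    D.Adm r (twx w ξ) := by sorry

theorem AdmN.twN {D : Data} {N : ℕ} {r : ℝ} {ξ : ℝ → ℂ} (hN : 0 < N) (h2 : 2 ∣ N)
    (h : D.AdmN N r ξ) (w : ℂ) : D.AdmN N r (twN N w ξ) := by sorry

theorem AdmN.smul {D : Data} {N : ℕ} {r a : ℝ} {ξ : ℝ → ℂ} (ha : 0 ≤ a) (h : D.AdmN N r ξ) :
    D.AdmN N (a * r) (fun t => (a : ℂ) * ξ t) := by sorry

theorem Adm.smul {D : Data} {r a : ℝ} {ξ : ℝ → ℂ} (ha : 0 ≤ a) (h : D.Adm r ξ) :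
    D.Adm (a * r) (fun t => (a : ℂ) * ξ t) := by sorry

theorem AdmN.mono {D : Data} {N : ℕ} {r r' : ℝ} {ξ : ℝ → ℂ} (hN : 0 < N) (hr : r ≤ r')
    (h : D.AdmN N r ξ) : D.AdmN N r' ξ := by sorry

theorem Adm.mono {D : Data} {r r' : ℝ} {ξ : ℝ → ℂ} (hr : r ≤ r') (h : D.Adm r ξ) :
    D.Adm r' ξ := by sorry

theorem tw_mem {D : Data} {γ : Fin D.m → ℂ} (h : γ ∈ D.Γ) (w : ℂ) : D.tw w γ ∈ D.Γ := by sorry

theorem tw_tw (D : Data) (w w' : ℂ) (γ : Fin D.m → ℂ) :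
    D.tw w' (D.tw w γ) = D.tw (w + w') γ := by sorry

theorem twN_twN (N : ℕ) (w w' : ℂ) (ξ : ℝ → ℂ) : twN N w' (twN N w ξ) = twN N (w + w') ξ := by
  sorry

theorem twx_twx (w w' : ℂ) (ξ : ℝ → ℂ) : twx w' (twx w ξ) = twx (w + w') ξ := by sorry

theorem NN_pos (D : Data) (n : ℕ) : 0 < D.NN n := by sorry

theorem NN_even (D : Data) (n : ℕ) : 2 ∣ D.NN n := by sorry

theorem NN_dvd (D : Data) {n p : ℕ} (hp : 0 < p) (h : p ≤ n) : p ∣ D.NN n := by sorry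

theorem NN_node (D : Data) (n : ℕ) (i : Fin D.m) : ∃ k : ℕ, D.τ i = k / D.NN n := by sorry

theorem NN_tendsto (D : Data) : Tendsto D.NN atTop atTop := by sorry

end Pool.Agent.Helper84.HRT
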