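import Mathlib
import Pool.Agent.Helper84.HRT.DefsA

open MeasureTheory Complex Filter
open scoped ENNReal ComplexConjugate InnerProductSpace BigOperators Topology

namespace Pool.Agent.Helper84.HRT

variable {H : Type} [NormedAddCommGroup H] [InnerProductSpace ℂ H] [CompleteSpace H]
variable (W : Weyl H)

theorem XL_sym8 {D : Data} {r : ℝ} {ξ : ℝ → ℂ} (hr : 0 ≤ r) (h : D.Adm r ξ) (f f' : H) :
    inner ℂ (XL W mu8 ξ f) f' = inner ℂ f (XL W mu8 ξ f') := by sorry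

theorem XL_symN {D : Data} {N : ℕ} {r : ℝ} {ξ : ℝ → ℂ} (hN : 0 < N) (h2 : 2 ∣ N) (hr : 0 ≤ r)
    (h : D.AdmN N r ξ) (f f' : H) :
    inner ℂ (XL W (muN N) ξ f) f' = inner ℂ f (XL W (muN N) ξ f') := by sorry

theorem tr_Bop (D : Data) (w : ℂ) (γ : Fin D.m → ℂ) :
    tr W w (Bop W D γ) = Bop W D (D.tw w γ) := by sorry

theorem tr_XL8 {M : ℝ} {ξ : ℝ → ℂ} (h : Bd mu8 M ξ) (w : ℂ) :
    tr W w (XL W mu8 ξ) = XL W mu8 (twx w ξ) := by sorry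

theorem tr_XLN {N : ℕ} (hN : 0 < N) {ξ : ℝ → ℂ} (h : Measurable ξ) (w : ℂ) :
    tr W w (XL W (muN N) ξ) = XL W (muN N) (twN N w ξ) := by sorry

theorem tr_Aop8 (D : Data) {M : ℝ} {ξ : ℝ → ℂ} (h : Bd mu8 M ξ) (γ : Fin D.m → ℂ) (w : ℂ) :
    tr W w (Aop W D mu8 γ ξ) = Aop W D mu8 (D.tw w γ) (twx w ξ) := by sorry

theorem tr_AopN (D : Data) {N : ℕ} (hN : 0 < N) {ξ : ℝ → ℂ} (h : Measurable ξ)
    (γ : Fin D.m → ℂ) (w : ℂ) :
    tr W w (Aop W D (muN N) γ ξ) = Aop W D (muN N) (D.tw w γ) (twN N w ξ) := by sorry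

end Pool.Agent.Helper84.HRT
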