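import Mathlib
import Pool.Agent.Helper84.HRT.DefsA

open MeasureTheory Complex Filter
open scoped ENNReal ComplexConjugate InnerProductSpace BigOperators Topology

namespace Pool.Agent.Helper84.HRT

variable {H : Type} [NormedAddCommGroup H] [InnerProductSpace ℂ H] [CompleteSpace H]

instance dA_haar : (dA).IsAddHaarMeasure := by sorry

theorem young (h F : ℂ → ℝ≥0∞) (hh : Measurable h) (hF : Measurable F) :
    ∫⁻ z, (∫⁻ ζ, h (z - ζ) * F ζ ∂dA) ^ 2 ∂dA ≤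
      (∫⁻ x, h x ∂dA) ^ 2 * ∫⁻ ζ, F ζ ^ 2 ∂dA := by sorry

theorem gauss_fin (a : ℝ) (k : ℕ) :
    ∫⁻ x : ℂ, ENNReal.ofReal ((1 + ‖x‖) ^ k * Real.exp (a * ‖x‖ - ‖x‖ ^ 2 / 2)) ∂dA < ⊤ := by sorry

theorem Kk_norm (z ζ : ℂ) : ‖Kk z ζ‖ = Real.exp (-‖z - ζ‖ ^ 2 / 2) := by sorry

theorem Kk_cont : Continuous fun p : ℂ × ℂ => Kk p.1 p.2 := by sorry

theorem om_logLip {R : ℝ} (hR : 4 ≤ R) : LogLip (om R) := by sorry

theorem omm_logLip {R : ℝ} (hR : 4 ≤ R) : LogLip (omm R) := by sorry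

theorem om_isW : ∃ C : ℝ, 0 < C ∧ ∀ R : ℝ, C ≤ R → IsW (om R) (fun _ => C / R) := by sorry

end Pool.Agent.Helper84.HRT
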