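import Mathlib
import Pool.Agent.Helper84.HRT.DefsA

open MeasureTheory Complex Filter
open scoped ENNReal ComplexConjugate InnerProductSpace BigOperators Topology

namespace Pool.Agent.Helper84.HRT

variable {H : Type} [NormedAddCommGroup H] [InnerProductSpace ℂ H] [CompleteSpace H]

/-- integrability of the kernel against functions in weighted L² -/
theorem Kop_integrable (Y : ℂ → ℝ) (hY : LogLip Y) (F : ℂ → ℂ) (hF : AEStronglyMeasurable F dA)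
    (hfin : S2 Y F < ⊤) (z : ℂ) : Integrable (fun ζ => Kk z ζ * F ζ) dA := by sorry

theorem Kop_weighted : ∃ C : ℝ, 0 < C ∧ ∀ (Y : ℂ → ℝ) (F : ℂ → ℂ), LogLip Y →
    AEStronglyMeasurable F dA → S2 Y (Kop F) ≤ ENNReal.ofReal C * S2 Y F := by sorry

theorem Kop_pointwise : ∃ C : ℝ, 0 < C ∧ ∀ (Y : ℂ → ℝ) (F : ℂ → ℂ), LogLip Y →
    AEStronglyMeasurable F dA → ∀ z, ‖((Y z : ℝ) : ℂ) * Kop F z‖ₑ ^ 2 ≤ ENNReal.ofReal C * S2 Y F := by
  sorry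

theorem Kop_lip : ∃ C : ℝ, 0 < C ∧ ∀ (Y : ℂ → ℝ) (F : ℂ → ℂ), LogLip Y →
    AEStronglyMeasurable F dA → ∀ z z', ‖z - z'‖ ≤ 1 →
    ‖((Y z : ℝ) : ℂ) * (Kop F z - Kop F z')‖ₑ ^ 2 ≤
      ENNReal.ofReal (C * (1 + ‖z‖) ^ 2 * ‖z - z'‖ ^ 2) * S2 Y F := by sorry

theorem Kop_continuous (Y : ℂ → ℝ) (hY : LogLip Y) (F : ℂ → ℂ) (hF : AEStronglyMeasurable F dA)
    (hfin : S2 Y F < ⊤) : Continuous (Kop F) := by sorry

/-- Rep is preserved by the action of the Weyl unitaries -/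
theorem rep_act (α : ℂ) (G : ℂ → ℂ) (hG : Rep G) : Rep (act α G) := by sorry

theorem S2_act (α : ℂ) (Y : ℂ → ℝ) (hY : LogLip Y) (G : ℂ → ℂ) :
    S2 Y (act α G) ≤ ENNReal.ofReal (Real.exp (2 * ‖α‖)) * S2 Y G := by sorry

theorem act_Kop (α : ℂ) (Y : ℂ → ℝ) (hY : LogLip Y) (F : ℂ → ℂ) (hF : AEStronglyMeasurable F dA)
    (hfin : S2 Y F < ⊤) (z : ℂ) : act α (Kop F) z = Kop (act α F) z := by sorry

end Pool.Agent.Helper84.HRT
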